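import Pool.Agent.H59.PF.Lines

set_option autoImplicit false

/-! The number of the lines in a row. -/

namespace Pool.Agent.H59.PF

open Finset

/-- the number of points -/
def rr (f e : ℕ) : ℕ := 9 * f ^ 2 + 2 * e * f

section
variable {f h e q : ℕ} {K σ : ℝ}

theorem sum_lin (hf : f = 2 * h + 1) (e : ℕ) (i : ℤ) :
    ∑ g ∈ range f, ((9 * (f : ℤ) + 2 * e) * i + 9 * (h - g)) = rr f e * i := by
  have h1 : (∑ g ∈ range f, ((g : ℕ) : ℤ)) * 2 = f * (f - 1) := by
    have h2 := Finset.sum_range_id_mul_two f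
    have h3 : (((∑ g ∈ range f, g) * 2 : ℕ) : ℤ) = ((f * (f - 1) : ℕ) : ℤ) := by rw [h2]
    push_cast [Nat.cast_sub (show 1 ≤ f by omega)] at h3
    exact h3
  rw [sum_add_distrib, sum_const, card_range, ← mul_sum, sum_sub_distrib, sum_const, card_range]
  unfold rr
  simp only [nsmul_eq_mul]
  push_cast
  have h4 : (f : ℤ) = 2 * h + 1 := by exact_mod_cast hf
  have h5 : ∑ g ∈ range f, ((g : ℕ) : ℤ) = f * h := by
    have : (f : ℤ) - 1 = 2 * h := by omega
    rw [this] at h1
    linarith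
  rw [h5]
  ring

theorem low_term (P : Pr f h e q K σ) {d : ℕ} {M : ℕ} (j g : ℕ)
    (ht : σ * (2 * M + 1) ≤ 2 * d + 3) :
    (9 * (f : ℤ) + 2 * e) * (M - j) + 9 * (h - g) ≤
      ((nR K (yy f e K d j) g + nL e q K (yy f e K d j) g : ℕ) : ℤ) := by
  have hK := P.K9
  have h1 := P.pair d M ((M : ℝ) - j) g
  have e0 : (M : ℝ) - (M - j) = j := by ring
  rw [e0] at h1
  have h2 : 0 ≤ (1 + (K - 9) / K) * (K * (2 * d + 3 - σ * (2 * M + 1)) / 6) := by
    have : 0 ≤ (K - 9) / K := div_nonneg (by linarith) (by linarith)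
    have : 0 ≤ K * (2 * d + 3 - σ * (2 * M + 1)) / 6 := by
      have : 0 ≤ K * (2 * d + 3 - σ * (2 * M + 1)) := mul_nonneg (by linarith) (by linarith)
      linarith
    positivity
  have h3 := Nat.lt_floor_add_one (yy f e K d j - K * g)
  have h4 := Nat.lt_floor_add_one ((yy f e K d j + K * (1 + g)) / (1 + q * K))
  have h5 : ((9 * (f : ℤ) + 2 * e) * (M - j) + 9 * (h - g) + e : ℤ) <
      ((⌊yy f e K d j - K * g⌋₊ + ⌊(yy f e K d j + K * (1 + g)) / (1 + q * K)⌋₊ + 2 : ℕ) : ℤ) := by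
    have : (((9 * (f : ℤ) + 2 * e) * (M - j) + 9 * (h - g) + e : ℤ) : ℝ) <
      (((⌊yy f e K d j - K * g⌋₊ + ⌊(yy f e K d j + K * (1 + g)) / (1 + q * K)⌋₊ + 2 : ℕ) : ℤ) : ℝ) := by
      push_cast
      linarith
    exact_mod_cast this
  unfold nR nL
  have h6 := P.e1
  omega

/-- **the rows are long**, from the critical degree on -/
theorem card_low (P : Pr f h e q K σ) {d : ℕ} {M : ℕ} (j : ℕ) (ht : σ * (2 * M + 1) ≤ 2 * d + 3) :
    (rr f e : ℤ) * (M - j) ≤ (BB f e q K (yy f e K d j)).card := by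
  rw [card_BB P, Nat.cast_sum, ← sum_lin P.hf e ((M : ℤ) - j)]
  exact sum_le_sum fun g _ => low_term P j g ht

theorem up_term (P : Pr f h e q K σ) {d : ℕ} {M : ℕ} {j g : ℕ} (hj : j < M) (hg : g < f)
    (ht : 2 * d + 3 < σ * (2 * M + 1)) (ht2 : σ * (2 * M + 1) ≤ 2 * d + 3 + 2) :
    ((nR K (yy f e K d j) g + nL e q K (yy f e K d j) g : ℕ) : ℤ) ≤
      (9 * (f : ℤ) + 2 * e) * (M - j) + 9 * (h - g) := by
  have hK := P.K9
  have hf1 := P.fR
  have he1 := P.eR1
  have he2 := P.eR2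
  have hD := P.D0
  have hqe := P.qeR
  have h1 := P.pair d M ((M : ℝ) - j) g
  have h0 := P.yy_eq d M ((M : ℝ) - j)
  have e0 : (M : ℝ) - (M - j) = j := by ring
  rw [e0] at h1 h0
  obtain ⟨η, hη⟩ : ∃ η, η = K * (2 * d + 3 - σ * (2 * M + 1)) / 6 := ⟨_, rfl⟩
  have hη0 : η < 0 := by
    rw [hη]
    have : K * (2 * d + 3 - σ * (2 * M + 1)) < 0 := mul_neg_of_pos_of_neg (by linarith) (by linarith)
    linarith
  have hη1 : -(K / 3) ≤ η := by
    rw [hη]
    have : K * (-2) ≤ K * (2 * d + 3 - σ * (2 * M + 1)) := mul_le_mul_of_nonneg_left (by linarith) (by linarith)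
    linarith
  rw [← hη] at h1 h0
  have h2 : (1 + (K - 9) / K) * η < 0 := by
    have : 0 ≤ (K - 9) / K := div_nonneg (by linarith) (by linarith)
    exact mul_neg_of_pos_of_neg (by linarith) hη0
  have hgR : (g : ℝ) + 1 ≤ f := by exact_mod_cast hg
  have hjR : (1 : ℝ) ≤ M - j := by
    have : (j : ℝ) + 1 ≤ M := by exact_mod_cast hj
    linarith
  have hKf : 0 ≤ (e : ℝ) + K * f := by positivity
  have h7 : e + K * f + ((f - 1) * K + e) / 2 - K / 3 ≤ yy f e K d j := by
    have := mul_le_mul_of_nonneg_left hjR hKf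
    rw [h0]; linarith
  have hKg : K * g ≤ K * (f - 1) := mul_le_mul_of_nonneg_left (by linarith) (by linarith)
  have hKg0 : 0 ≤ K * g := by positivity
  have hKf1 : K ≤ K * f := by nlinarith
  have hx0 : 0 ≤ yy f e K d j - K * g := by nlinarith
  have hz0 : ((e : ℝ) - 1) ≤ (yy f e K d j + K * (1 + g)) / (1 + q * K) := by
    rw [le_div_iff₀ hD]
    have e1 : ((e : ℝ) - 1) * (1 + q * K) = (q * e) * K + e - 1 - q * K := by ring
    rw [e1, hqe]
    have := mul_le_mul_of_nonneg_right P.fqR (show (0 : ℝ) ≤ K by linarith)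
    nlinarith
  have hz1 : (0 : ℝ) ≤ (yy f e K d j + K * (1 + g)) / (1 + q * K) := by linarith
  have h3 := Nat.floor_le hx0
  have h4 := Nat.floor_le hz1
  have h8 : e - 1 ≤ ⌊(yy f e K d j + K * (1 + g)) / (1 + q * K)⌋₊ := by
    apply Nat.le_floor
    rw [Nat.cast_sub P.e1]
    simpa using hz0
  have h5 : ((⌊yy f e K d j - K * g⌋₊ + ⌊(yy f e K d j + K * (1 + g)) / (1 + q * K)⌋₊ : ℕ) : ℤ) <
      ((9 * (f : ℤ) + 2 * e) * (M - j) + 9 * (h - g) + e : ℤ) := by
    have : (((⌊yy f e K d j - K * g⌋₊ + ⌊(yy f e K d j + K * (1 + g)) / (1 + q * K)⌋₊ : ℕ) : ℤ) : ℝ) <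
        (((9 * (f : ℤ) + 2 * e) * (M - j) + 9 * (h - g) + e : ℤ) : ℝ) := by
      push_cast
      linarith
    exact_mod_cast this
  unfold nR nL
  have h6 := P.e1
  omega

/-- **the rows are short**, below the critical degree -/
theorem card_up (P : Pr f h e q K σ) {d : ℕ} {M : ℕ} {j : ℕ} (hj : j < M)
    (ht : 2 * d + 3 < σ * (2 * M + 1)) (ht2 : σ * (2 * M + 1) ≤ 2 * d + 3 + 2) :
    ((BB f e q K (yy f e K d j)).card : ℤ) ≤ rr f e * (M - j) := by
  rw [card_BB P, Nat.cast_sum, ← sum_lin P.hf e ((M : ℤ) - j)]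
  exact sum_le_sum fun g hg => up_term P hj (mem_range.1 hg) ht ht2

/-- the rows above -/
theorem card_none (P : Pr f h e q K σ) {d : ℕ} {M : ℕ} {j : ℕ} (hj : M < j)
    (ht : 2 * d + 3 < σ * (2 * M + 1)) : (BB f e q K (yy f e K d j)).card = 0 := by
  have hK := P.K9
  have hf1 := P.fR
  have he1 := P.eR1
  have he2 := P.eR2
  have hD := P.D0
  have hqe := P.qeR
  have h0 := P.yy_eq d M ((M : ℝ) - j)
  have e0 : (M : ℝ) - (M - j) = j := by ring
  rw [e0] at h0
  have hη0 : K * (2 * d + 3 - σ * (2 * M + 1)) / 6 < 0 := by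
    have : K * (2 * d + 3 - σ * (2 * M + 1)) < 0 := mul_neg_of_pos_of_neg (by linarith) (by linarith)
    linarith
  have hjR : (M : ℝ) - j ≤ -1 := by
    have : (M : ℝ) + 1 ≤ j := by exact_mod_cast hj
    linarith
  have hKf : 0 ≤ (e : ℝ) + K * f := by positivity
  have h7 : yy f e K d j < -(e + K * f) + ((f - 1) * K + e) / 2 := by
    have := mul_le_mul_of_nonneg_left hjR hKf
    rw [h0]; linarith
  have hKf1 : K ≤ K * f := by nlinarith
  rw [card_BB P]
  refine sum_eq_zero fun g hg => ?_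
  rw [mem_range] at hg
  have hgR : (g : ℝ) + 1 ≤ f := by exact_mod_cast hg
  have hKg : K * (1 + g) ≤ K * f := mul_le_mul_of_nonneg_left (by linarith) (by linarith)
  have hKg0 : 0 ≤ K * g := by positivity
  have h8 : nR K (yy f e K d j) g = 0 := by
    unfold nR
    rw [Nat.floor_eq_zero]
    nlinarith
  have h9 : ⌊(yy f e K d j + K * (1 + g)) / (1 + q * K)⌋₊ < e := by
    have he := P.e1
    rw [Nat.floor_lt' (by omega), div_lt_iff₀ hD]
    have e1 : (e : ℝ) * (1 + q * K) = e + (q * e) * K := by ring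
    rw [e1, hqe]
    nlinarith
  rw [h8]
  unfold nL
  omega

/-- the row `M` -/
theorem card_top (P : Pr f h e q K σ) {d : ℕ} {M : ℕ} (ht : 2 * d + 3 < σ * (2 * M + 1)) :
    8 * (BB f e q K (yy f e K d M)).card + 9 ≤ rr f e := by
  have hK := P.K9
  have hf1 := P.fR
  have he1 := P.eR1
  have he2 := P.eR2
  have hD := P.D0
  have hqe := P.qeR
  have hke := P.ke
  have hfh := P.hfR
  have h0 := P.yy_eq d M 0
  rw [sub_zero, mul_zero, zero_add] at h0
  have hη0 : K * (2 * d + 3 - σ * (2 * M + 1)) / 6 < 0 := by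
    have : K * (2 * d + 3 - σ * (2 * M + 1)) < 0 := mul_neg_of_pos_of_neg (by linarith) (by linarith)
    linarith
  have h7 : yy f e K d M < ((f - 1) * K + e) / 2 := by rw [h0]; linarith
  have hKf1 : K ≤ K * f := by nlinarith
  have hL : ∀ g ∈ range f, nL e q K (yy f e K d M) g = 0 := by
    intro g hg
    rw [mem_range] at hg
    have hgR : (g : ℝ) + 1 ≤ f := by exact_mod_cast hg
    have hKg : K * (1 + g) ≤ K * f := mul_le_mul_of_nonneg_left (by linarith) (by linarith)
    have h9 : ⌊(yy f e K d M + K * (1 + g)) / (1 + q * K)⌋₊ < e := by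
      have he := P.e1
      rw [Nat.floor_lt' (by omega), div_lt_iff₀ hD]
      have e1 : (e : ℝ) * (1 + q * K) = e + (q * e) * K := by ring
      rw [e1, hqe]
      nlinarith
    unfold nL
    omega
  -- the right end
  have hR : ∀ g, nR K (yy f e K d M) g ≤ if g < h then 9 * (h - g) + (e - 1) else 0 := by
    intro g
    unfold nR
    split_ifs with hg
    · -- `9 (h - g) + (e - 1)`
      have hgR : (g : ℝ) + 1 ≤ h := by exact_mod_cast hg
      have h10 : ⌊yy f e K d M - K * g⌋₊ < 9 * (h - g) + e := by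
        rw [Nat.floor_lt' (by omega)]
        push_cast [Nat.cast_sub hg.le]
        have h11 : (K - 9) * ((h : ℝ) - g) ≤ e / 4 := by
          -- `2 f K (K - 9) = 9 e`
          have h12 : (K - 9) * ((h : ℝ) - g) ≤ (K - 9) * h :=
            mul_le_mul_of_nonneg_left (by linarith [show (0 : ℝ) ≤ g from Nat.cast_nonneg g]) (by linarith)
          have h13 : 9 * (4 * ((K - 9) * h)) ≤ 9 * e := by
            rw [← hke, hfh]
            have h14 : 0 ≤ (K - 9) * h := mul_nonneg (by linarith) (Nat.cast_nonneg h)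
            nlinarith
          linarith
        have e2 : ((f : ℝ) - 1) * K / 2 = K * h := by rw [hfh]; ring
        have e3 : K * h - K * g = 9 * (h - g) + (K - 9) * (h - g) := by ring
        nlinarith
      have := P.e1
      omega
    · rw [Nat.le_zero, Nat.floor_eq_zero]
      have hgR : (h : ℝ) ≤ g := by exact_mod_cast not_lt.1 hg
      have := mul_le_mul_of_nonneg_left hgR (show (0 : ℝ) ≤ K by linarith)
      have e2 : ((f : ℝ) - 1) * K / 2 = K * h := by rw [hfh]; ring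
      nlinarith
  rw [card_BB P, sum_add_distrib, sum_eq_zero hL, add_zero]
  have h20 : ∑ g ∈ range f, nR K (yy f e K d M) g ≤ ∑ g ∈ range f, (if g < h then 9 * (h - g) + (e - 1) else 0) :=
    sum_le_sum fun g _ => hR g
  have h21 : ∑ g ∈ range f, (if g < h then 9 * (h - g) + (e - 1) else 0) =
      9 * (∑ g ∈ range h, (h - g)) + h * (e - 1) := by
    rw [← sum_filter]
    have h30 : (range f).filter (fun g => g < h) = range h := by
      ext x
      rw [mem_filter, mem_range, mem_range, P.hf]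
      omega
    rw [h30, sum_add_distrib, ← mul_sum, sum_const, card_range, smul_eq_mul]
  have h22 : 2 * ∑ g ∈ range h, (h - g) = h * (h + 1) := by
    have h23 : ∑ g ∈ range h, (h - g) = ∑ g ∈ range (h + 1), g := by
      rw [← Finset.sum_range_reflect (fun l => l) (h + 1), Finset.sum_range_succ]
      have : h + 1 - 1 - h = 0 := by omega
      rw [this, add_zero]
      rfl
    have h24 := Finset.sum_range_id_mul_two (h + 1)
    rw [Nat.add_sub_cancel] at h24
    rw [h23]
    linarith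
  obtain ⟨s, hs⟩ : ∃ s, s = ∑ g ∈ range h, (h - g) := ⟨_, rfl⟩
  obtain ⟨S, hS⟩ : ∃ S, S = ∑ g ∈ range f, nR K (yy f e K d M) g := ⟨_, rfl⟩
  rw [← hs] at h21 h22
  rw [h21, ← hS] at h20
  rw [← hS]
  have h25 := P.hf
  have h26 := P.e1
  have h27 := P.e2
  unfold rr
  have h31 : e = 1 ∨ e = 2 := by omega
  rcases h31 with h31 | h31
  · rw [h31] at h20 ⊢
    rw [h25]
    simp only [Nat.sub_self, mul_zero, add_zero] at h20
    nlinarith
  · rw [h31] at h20 ⊢
    rw [h25]
    have h32 : h * (2 - 1) = h := by omega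
    rw [h32] at h20
    nlinarith

end

end Pool.Agent.H59.PF
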