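import Pool.Agent.H59.PF.Emp

set_option autoImplicit false

/-! From emptiness after `n` additional conditions to dimensions. -/

namespace Pool.Agent.H59.PF

open Finset Polynomial Pool.Agent.TH176.Nag Pool.Agent.TH603.Sur Pool.Agent.TH183.QC
open Pool.Agent.TH183.QS Pool.Agent.TH183.QI Pool.Agent.H932R2 Pool.Agent.H932R3
open Pool.Agent.TH183.QN (TT)

universe u

theorem finrank_low {K : Type*} [Field K] {J : Ideal K[X][X]} {M : Finset (ℕ × ℕ)} {N : ℕ}
    (hR : RkI J (↑M : Set (ℕ × ℕ)) N) :
    Module.finrank K ↥(mspan K (↑M : Set (ℕ × ℕ)) ⊓ Submodule.restrictScalars K J) + N ≤ M.card := by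
  classical
  obtain ⟨v, hv, hli⟩ := hR
  have hV : mspan K (↑M : Set (ℕ × ℕ)) = LinearMap.range (coordMap K M) := by
    ext f
    rw [mem_mspan_iff, LinearMap.mem_range]
  have hfin : FiniteDimensional K ↥(mspan K (↑M : Set (ℕ × ℕ))) := by
    rw [hV]; infer_instance
  have hVr : Module.finrank K ↥(mspan K (↑M : Set (ℕ × ℕ))) ≤ M.card := by
    rw [hV]
    have h1 := LinearMap.finrank_range_le (coordMap K M)
    simpa using h1
  have hfin2 : FiniteDimensional K
      ↥(mspan K (↑M : Set (ℕ × ℕ)) ⊓ Submodule.restrictScalars K J) :=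
    Submodule.finiteDimensional_of_le inf_le_left
  have hU : Submodule.span K (Set.range v) ≤ mspan K (↑M : Set (ℕ × ℕ)) := by
    rw [Submodule.span_le]
    rintro _ ⟨i, rfl⟩
    exact hv i
  have hfin3 : FiniteDimensional K ↥(Submodule.span K (Set.range v)) :=
    Submodule.finiteDimensional_of_le hU
  have hLI : LinearIndependent K v := by
    rw [Fintype.linearIndependent_iff]
    intro c hc
    apply hli c
    rw [hc]
    exact J.zero_mem
  have hUr : Module.finrank K ↥(Submodule.span K (Set.range v)) = N := by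
    rw [finrank_span_eq_card hLI, Fintype.card_fin]
  have hdis : Submodule.span K (Set.range v) ⊓
      (mspan K (↑M : Set (ℕ × ℕ)) ⊓ Submodule.restrictScalars K J) = ⊥ := by
    rw [eq_bot_iff]
    rintro x ⟨hx1, -, hx2⟩
    rw [SetLike.mem_coe, Submodule.mem_span_range_iff_exists_fun] at hx1
    obtain ⟨c, rfl⟩ := hx1
    have h1 := hli c hx2
    rw [Submodule.mem_bot]
    exact sum_eq_zero fun i _ => by rw [h1 i, zero_smul]
  have h1 := Submodule.finrank_sup_add_finrank_inf_eq (Submodule.span K (Set.range v))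
    (mspan K (↑M : Set (ℕ × ℕ)) ⊓ Submodule.restrictScalars K J)
  rw [hdis, finrank_bot, add_zero, hUr] at h1
  have h2 : Submodule.span K (Set.range v) ⊔
      (mspan K (↑M : Set (ℕ × ℕ)) ⊓ Submodule.restrictScalars K J) ≤ mspan K (↑M : Set (ℕ × ℕ)) :=
    sup_le hU inf_le_left
  have h3 := Submodule.finrank_mono h2
  omega

/-- the dimension of the space of forms -/
theorem jet_low {K : Type*} [Field K] {r m : ℕ} {c : K} {a : Fin r → K} {D N n : ℕ}
    (h : RkI (jetIdeal m c a) (Tset D) N) (hN : (Tfin D).card ≤ N + n) (d : ℕ) (hd : d ≤ D) :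
    Module.finrank K ↥(MvPolynomial.homogeneousSubmodule (Fin 3) K d ⊓
      (Submodule.restrictScalars K (jetIdeal m c a)).comap (deh K).toLinearMap) ≤ n := by
  have h1 : Module.finrank K ↥(MvPolynomial.homogeneousSubmodule (Fin 3) K d ⊓
      (Submodule.restrictScalars K (jetIdeal m c a)).comap (deh K).toLinearMap) =
      Module.finrank K ↥(mspan K (Tset d) ⊓ Submodule.restrictScalars K (jetIdeal m c a)) :=
    finrank_forms _ _ fun F _ => Iff.rfl
  rw [← coe_Tfin] at h
  have h2 := finrank_low h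
  rw [coe_Tfin] at h2
  have hfin : FiniteDimensional K ↥(mspan K (Tset D)) := by
    rw [← coe_Tfin]
    have hV : mspan K (↑(Tfin D) : Set (ℕ × ℕ)) = LinearMap.range (coordMap K (Tfin D)) := by
      ext f
      rw [mem_mspan_iff, LinearMap.mem_range]
    rw [hV]; infer_instance
  have hfin2 : FiniteDimensional K ↥(mspan K (Tset D) ⊓ Submodule.restrictScalars K (jetIdeal m c a)) :=
    Submodule.finiteDimensional_of_le inf_le_left
  have h3 : mspan K (Tset d) ⊓ Submodule.restrictScalars K (jetIdeal m c a) ≤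
      mspan K (Tset D) ⊓ Submodule.restrictScalars K (jetIdeal m c a) :=
    inf_le_inf_right _ (mspan_mono (Tset_mono hd))
  have h4 := Submodule.finrank_mono h3
  omega

/-- **few forms**, for general collisions -/
theorem coll_low {r m D n : ℕ} (hr : 0 < r)
    (h : EmpF n (fun _ : Unit => (r : ℝ)) (fun _ => (r * m : ℝ)) (TT D)) (L : Type u) [Field L] [CharZero L] :
    ∃ F : MvPolynomial (Fin (r + 1)) L, F ≠ 0 ∧
      ∀ (c : L) (a : Fin r → L), MvPolynomial.eval (Fin.cons c a : Fin (r + 1) → L) F ≠ 0 →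
        ∀ d ≤ D, Module.finrank L ↥(MvPolynomial.homogeneousSubmodule (Fin 3) L d ⊓
          (Submodule.restrictScalars L (jetIdeal m c a)).comap (deh L).toLinearMap) ≤ n := by
  have h1 : (D + 2).choose 2 = (Tfin D).card := by
    have h4 := card_Tfin D
    have h5 : (D + 2).choose 2 * 2 = (D + 2) * (D + 1) := by
      rw [Nat.choose_two_right, Nat.div_mul_cancel (Nat.even_mul_pred_self _).two_dvd]
      rfl
    linarith
  rcases le_or_gt n ((D + 2).choose 2) with hn | hn
  · obtain ⟨g, hg⟩ := EmpF.rk (N := (D + 2).choose 2 - n) hr (by omega) h L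
    obtain ⟨F, hF, hF'⟩ := coll_open hr hg
    exact ⟨F, hF, fun c a hc d hd => jet_low (hF' c a hc) (by omega) d hd⟩
  · refine ⟨1, one_ne_zero, fun c a _ d hd => jet_low (N := 0) ?_ (by omega) d hd⟩
    exact ⟨fun i => 0, fun i => i.elim0, fun _ _ i => i.elim0⟩

end Pool.Agent.H59.PF
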