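import Pool.Agent.H59.PF.EsF

set_option autoImplicit false

/-! Emptiness after few additional conditions, below the critical degree. -/

namespace Pool.Agent.H59.PF

open Finset Pool.Agent.TH176.Nag Pool.Agent.TH603.Sur Pool.Agent.TH183.QC Pool.Agent.TH183.QS
open Pool.Agent.TH183.QI
open Pool.Agent.TH183.QN (TT)

section
variable {f h e q : ℕ} {K σ : ℝ}

/-- the set after the second flattening -/
def SB (f e q : ℕ) (K : ℝ) (d : ℕ) : Set (ℤ × ℤ) :=
  {p | 0 ≤ p.2 ∧ p.1 ∈ BB f e q K (yy f e K d (p.2.toNat : ℕ))}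

/-- the second flattening, emptiness -/
theorem empA_sb (P : Pr f h e q K σ) {w : ES} {d : ℕ} (hS : EmpA w (SB f e q K d)) :
    EmpA w (GGo q K d) := by
  obtain ⟨u, v, huv⟩ := P.bez
  refine EmpA_flat (f : ℤ) (-(e : ℤ)) u v huv ?_ hS
  rintro ⟨t, k⟩ T j h1 h2 hj
  obtain ⟨g1, g2, g3⟩ := h2
  simp only at g1 g2 g3 h1
  refine ⟨by simp, ?_⟩
  simp only [Int.toNat_natCast]
  have h3 := mem_line P (j := j) (T := T) h1 (by
    push_cast at g2
    have e1 : (t : ℝ) - -(e : ℝ) * T = t + e * T := by ring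
    rw [e1] at g2
    exact g2) hj
  have e2 : (f : ℤ) * t + -(e : ℤ) * k = f * t - e * k := by ring
  rw [e2]
  exact h3

/-- **two flattenings**, emptiness -/
theorem empA_two (P : Pr f h e q K σ) {P' : ℕ → Set (ℤ × ℤ) → Prop} {hP : IndSys P'} {h0 : P' 0 ∅}
    {n d M : ℕ} (ht : 2 * d + 3 < σ * (2 * M + 1)) (ht2 : σ * (2 * M + 1) ≤ 2 * d + 3 + 2)
    (hS : EmpA (esI hP h0 n) (Cl ((rr f e * M : ℕ) : ℝ) ((rr f e : ℕ) : ℝ))) :
    EmpA (esI hP h0 (n + (BB f e q K (yy f e K d M)).card + 1)) (GG q K d) := by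
  have h1 : EmpA (esI hP h0 (n + (BB f e q K (yy f e K d M)).card)) (GGo q K d) := by
    refine empA_sb P ?_
    refine empA_bump (r := rr f e) (m := M) (fun p hp => hp.1) ?_ ?_ ?_ hS
    · intro j hj A hA
      have h2 : A ⊆ BB f e q K (yy f e K d j) := fun a ha => by
        have := (hA a ha).2
        simpa using this
      have h3 := card_le_card h2
      have h4 := card_up P (d := d) hj ht ht2
      have h5 : ((BB f e q K (yy f e K d j)).card : ℤ) ≤ ((rr f e * (M - j) : ℕ) : ℤ) := by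
        push_cast [Nat.cast_sub hj.le]
        exact h4
      exact h3.trans (by exact_mod_cast h5)
    · intro A hA
      exact card_le_card fun a ha => by
        have := (hA a ha).2
        simpa using this
    · intro j hj A hA
      rw [← card_none P (d := d) hj ht]
      exact card_le_card fun a ha => by
        have := (hA a ha).2
        simpa using this
  have h2 := esI_add (T := {((0 : ℤ), (0 : ℤ))}) h1 (S' := GG q K d) (by
    rw [coe_singleton]
    exact gg_sub q K d)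
  rw [card_singleton] at h2
  exact h2

end

/-! ### odd multiples -/

/-- **odd multiples**, emptiness -/
theorem empA_odd {P' : ℕ → Set (ℤ × ℤ) → Prop} {hP : IndSys P'} {h0 : P' 0 ∅} {r k l m M n : ℕ}
    (hr : 1 ≤ r) (hk : k = 2 * l + 1) (hM : M = k * m + l)
    (hS : EmpA (esI hP h0 n) (Cl ((r * k ^ 2 * m : ℕ) : ℝ) ((r * k ^ 2 : ℕ) : ℝ))) :
    EmpA (esI hP h0 (n + r * Ns k l)) (Cl ((r * M : ℕ) : ℝ) (r : ℝ)) := by
  have key : ∀ (j : ℕ) (c : ℤ) (p : ℤ × ℤ) (T : ℤ), p ∈ Cl ((r * M : ℕ) : ℝ) (r : ℝ) →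
      ((p.1 - r * k * T, p.2 + 1 * T) : ℤ × ℤ) ∈ Cl ((r * M : ℕ) : ℝ) (r : ℝ) → (j : ℤ) ≤ T →
      c = 1 * p.1 + r * k * p.2 → ∃ x y : ℕ, k * j + x < M ∧ y < r * k ∧ y < r * (M - k * j - x) ∧
        c = (r * k : ℤ) * (j + x) + y := by
    rintro j c ⟨a, b⟩ T ⟨g1, g2, g3⟩ ⟨g4, g5, g6⟩ hj rfl
    simp only at g1 g2 g3 g4 g5 g6
    have hkZ : (1 : ℤ) ≤ k := by omega
    have hrZ : (1 : ℤ) ≤ r := by exact_mod_cast hr
    have hrk : (0 : ℤ) < r * k := by positivity
    have g3' : a + r * b < r * M := by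
      have : ((a + 1 + r * b : ℤ) : ℝ) ≤ ((r * M : ℤ) : ℝ) := by
        push_cast at g3 ⊢
        exact g3
      have h5 : a + 1 + r * b ≤ r * M := by exact_mod_cast this
      linarith
    -- `a = r k a' + y`
    obtain ⟨a', y, ha', hy, hay⟩ : ∃ a' y : ℕ, (T : ℤ) ≤ a' ∧ y < r * k ∧ a = r * k * a' + y := by
      have hT : 0 ≤ a / (r * k) := Int.ediv_nonneg g1 hrk.le
      have hy0 := Int.emod_nonneg a hrk.ne'
      obtain ⟨a', ha'⟩ := Int.eq_ofNat_of_zero_le hT
      obtain ⟨y, hy⟩ := Int.eq_ofNat_of_zero_le hy0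
      have h1 := Int.emod_lt_of_pos a hrk
      have h2 := Int.mul_ediv_add_emod a (r * k)
      refine ⟨a', y, ?_, ?_, ?_⟩
      · rw [← ha', Int.le_ediv_iff_mul_le hrk]
        linarith
      · rw [hy] at h1
        exact_mod_cast h1
      · rw [ha', hy] at h2
        linarith
    obtain ⟨b, rfl⟩ := Int.eq_ofNat_of_zero_le g2
    obtain ⟨x, hx⟩ : ∃ x : ℕ, (x : ℤ) = a' + b - j := ⟨a' + b - j, by omega⟩
    have hja : j ≤ a' := by omega
    -- `y < r (M - k j - x)`
    have h1 : (y : ℤ) + r * (k * a' + b) < r * M := by rw [hay] at g3'; linarith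
    have h2 : k * j + x ≤ k * a' + b := by
      have h3 : (0 : ℤ) ≤ (k - 1) * (a' - j) := mul_nonneg (by omega) (by omega)
      have h4 : (k * j + x : ℤ) ≤ k * a' + b := by rw [hx]; linarith
      exact_mod_cast h4
    have h3 : y + r * (k * j + x) < r * M := by
      have h5 : r * (k * j + x) ≤ r * (k * a' + b) := Nat.mul_le_mul_left r h2
      have h6 : y + r * (k * a' + b) < r * M := by exact_mod_cast h1
      omega
    have h4 : k * j + x < M := by
      by_contra hcon
      have := Nat.mul_le_mul_left r (not_lt.1 hcon)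
      omega
    refine ⟨x, y, h4, hy, ?_, ?_⟩
    · rw [Nat.sub_sub, Nat.mul_sub]
      omega
    · rw [hx, hay]; ring
  -- the rows
  have rows : ∀ (j : ℕ) (A : Finset ℤ), (∀ a ∈ A, ∃ x y : ℕ, k * j + x < M ∧ y < r * k ∧
      y < r * (M - k * j - x) ∧ a = (r * k : ℤ) * (j + x) + y) → A.card ≤ r * Ns k (M - k * j) := by
    intro j A hA
    rw [← card_Bk r k j (M - k * j)]
    refine card_le_card fun a ha => ?_
    obtain ⟨x, y, h1, h2, h3, h4⟩ := hA a ha
    exact mem_Bk.2 ⟨x, y, by omega, h2, h3, h4⟩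
  refine EmpA_flat 1 (r * k : ℤ) 1 0 (by ring) (S' := {p | 0 ≤ p.2 ∧ ∃ x y : ℕ,
    k * p.2.toNat + x < M ∧ y < r * k ∧ y < r * (M - k * p.2.toNat - x) ∧
    p.1 = (r * k : ℤ) * (p.2.toNat + x) + y}) ?_ ?_
  · rintro p T j h1 h2 hj
    refine ⟨by simp, ?_⟩
    simp only [Int.toNat_natCast]
    exact key j _ p T h1 h2 hj rfl
  · refine empA_bump (r := r * k ^ 2) (m := m) (fun p hp => hp.1) ?_ ?_ ?_ hS
    · intro j hj A hA
      have h1 := rows j A (fun a ha => by simpa using (hA a ha).2)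
      obtain ⟨n', rfl⟩ : ∃ n', m = j + n' := ⟨m - j, by omega⟩
      have e1 : M - k * j = k * n' + l := by
        rw [hM, mul_add]; omega
      rw [e1, Ns_odd hk (by omega)] at h1
      have e2 : j + n' - j = n' := by omega
      rw [e2, mul_assoc]
      exact h1
    · intro A hA
      have h1 := rows m A (fun a ha => by simpa using (hA a ha).2)
      have e1 : M - k * m = l := by rw [hM]; omega
      rw [e1] at h1
      exact h1
    · intro j hj A hA
      have h1 := rows j A (fun a ha => by simpa using (hA a ha).2)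
      have e1 : M - k * j = 0 := by
        rw [hM]
        have := Nat.mul_le_mul_left k (show m + 1 ≤ j from hj)
        rw [mul_add, mul_one] at this
        omega
      rw [e1] at h1
      simpa [Ns] using h1

end Pool.Agent.H59.PF
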