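import Pool.Agent.H59.PF.Ind
import Pool.Graph.R_pool_sql_team_seeded_35f281b4.K7.H2.RR.Spread

set_option autoImplicit false

/-! Bounds for the dimension as a system of emptiness predicates: emptiness after `n` additional
linear conditions. -/

namespace Pool.Agent.H59.PF

open Finset Pool.Agent.TH176.Nag Pool.Agent.TH603.Sur Pool.Agent.TH183.QC Pool.Agent.TH183.QS
open Pool.Agent.TH183.QI
open Pool.Agent.TH183.QN (TT)

section
variable {P : ℕ → Set (ℤ × ℤ) → Prop}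

/-- emptiness after `n` additional conditions, as a system of emptiness predicates -/
def esI (hP : IndSys P) (h0 : P 0 ∅) (n : ℕ) : ES where
  E S := ∀ T : Set (ℤ × ℤ), T ⊆ S → T.Finite → P n T
  none := by
    intro T hT _
    rw [Set.subset_empty_iff.1 hT]
    exact hP.le h0 (Nat.zero_le _)
  mono h hS := fun T hT hf => h T (hT.trans hS) hf
  comap := by
    intro S S' h a b c d u v hd hS T hT hf
    refine hP.comap (h ((fun m : ℤ × ℤ => (a * m.1 + b * m.2 + u, c * m.1 + d * m.2 + v)) '' T) ?_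
      (hf.image _)) a b c d u v hd (fun m hm => ⟨m, hm, rfl⟩)
    rintro _ ⟨m, hm, rfl⟩
    exact hS m (hT hm)
  flat0 := by
    intro S S' hS h T hT hf
    classical
    obtain ⟨N0, hN0⟩ : ∃ N0 : ℕ, ∀ m ∈ T, 0 ≤ m.2 + (N0 : ℤ) := by
      refine ⟨∑ m ∈ hf.toFinset, m.2.natAbs, fun m hm => ?_⟩
      have : m.2.natAbs ≤ ∑ m ∈ hf.toFinset, m.2.natAbs :=
        Finset.single_le_sum (f := fun m : ℤ × ℤ => m.2.natAbs) (fun _ _ => Nat.zero_le _)
          (hf.mem_toFinset.2 hm)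
      omega
    refine hP.flat0 hN0 (S' := {p : ℤ × ℤ | 0 ≤ p.2 ∧ ∃ B : Finset ℤ, (∀ b ∈ B, ((p.1, b) : ℤ × ℤ) ∈ T) ∧
      p.2 < B.card}) ?_ (h _ ?_ ?_)
    · intro a B hB k hk
      exact ⟨by simp, B, hB, by simp only; exact_mod_cast hk⟩
    · rintro ⟨a, k⟩ ⟨hk, B, hB, hkB⟩
      simp only at hk hB hkB
      obtain ⟨k, rfl⟩ := Int.eq_ofNat_of_zero_le hk
      exact hS a B (fun b hb => hT (hB b hb)) k (by exact_mod_cast hkB)
    · refine Set.Finite.subset ((hf.image Prod.fst).prod (Set.finite_Icc (0 : ℤ) hf.toFinset.card)) ?_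
      rintro ⟨a, k⟩ ⟨hk, B, hB, hkB⟩
      simp only at hk hB hkB
      have hne : B.Nonempty := by rw [← card_pos]; omega
      obtain ⟨b, hb⟩ := hne
      refine ⟨⟨(a, b), hB b hb, rfl⟩, hk, ?_⟩
      have h1 : B.card ≤ hf.toFinset.card := by
        refine card_le_card_of_injOn (fun b => ((a, b) : ℤ × ℤ)) ?_ ?_
        · intro b hb
          rw [mem_coe, hf.mem_toFinset]
          exact hB b hb
        · intro b _ b' _ h
          simpa using h
      simp only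
      omega
  chart := by
    intro N hN t e h T hT hf
    obtain ⟨f0, f1, f2, f3, u, v, hdet, hmap, hsur⟩ := Q3F_lat hN t e
    have hfin : (Q3z N (t + 2) (e : ℤ)).Finite := by
      refine Set.Finite.of_injOn (f := fun p : ℤ × ℤ => (f0 * p.1 + f1 * p.2 + u, f2 * p.1 + f3 * p.2 + v))
        hmap ?_ (S3F_finite hN (t + 2) e)
      intro p _ p' _ h
      simp only [Prod.mk.injEq] at h
      obtain ⟨e1, e2⟩ := h
      have a1 : (f0 * f3 - f1 * f2) * (p.1 - p'.1) = 0 := by linear_combination f3 * e1 - f1 * e2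
      have a2 : (f0 * f3 - f1 * f2) * (p.2 - p'.2) = 0 := by linear_combination f0 * e2 - f2 * e1
      have b1 := (mul_eq_zero.1 a1).resolve_left hdet.ne'
      have b2 := (mul_eq_zero.1 a2).resolve_left hdet.ne'
      ext
      · linarith
      · linarith
    exact hP.mono (hP.chart hN (hP.mono (hP.sub (h _ subset_rfl hfin) f0 f1 f2 f3 u v hdet) hsur)) hT

/-- additional exponents -/
theorem esI_add {hP : IndSys P} {h0 : P 0 ∅} {n : ℕ} {S S' : Set (ℤ × ℤ)} (h : EmpA (esI hP h0 n) S)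
    {T : Finset (ℤ × ℤ)} (hS : S' ⊆ S ∪ (↑T : Set (ℤ × ℤ))) : EmpA (esI hP h0 (n + T.card)) S' := by
  intro A hA hf
  refine hP.add (S := A ∩ S) (h _ Set.inter_subset_right (hf.inter_of_left _)) T ?_
  intro m hm
  rcases hS (hA hm) with h | h
  · exact Or.inl ⟨hm, h⟩
  · exact Or.inr h

theorem esI_le {hP : IndSys P} {h0 : P 0 ∅} {n n' : ℕ} {S : Set (ℤ × ℤ)} (h : EmpA (esI hP h0 n) S)
    (hn : n ≤ n') : EmpA (esI hP h0 n') S :=
  fun A hA hf => hP.le (h A hA hf) hn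

end

/-- the system for one germ of weight `r` and multiplicity `m` -/
def esD (r m n : ℕ) : ES :=
  esI (P := fun n S => EmpF n (fun _ : Unit => (r : ℝ)) (fun _ => (r * m : ℝ)) S)
    (EmpF.sys fun _ => Nat.cast_nonneg _) (EmpF.of_empW empW_empty) n

theorem reg_finite {α β μ ν : ℝ} (h : 0 < μ + ν) : (Reg α β μ ν).Finite := by
  refine Set.Finite.subset (s := (fun p : ℤ × ℤ => ((p.1, p.2 - 1) : ℤ × ℤ)) '' (IReg (α - μ - 1) (β + ν + 1) μ ν))
    ((IReg_finite h).image _) ?_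
  rintro ⟨a, b⟩ ⟨h1, h2, h3⟩
  simp only at h1 h2 h3
  refine ⟨(a, b + 1), ⟨by simp only; omega, ?_, ?_⟩, by simp⟩
  · simp only; push_cast; linarith
  · simp only; push_cast; linarith

theorem keyD (r m n : ℕ) : KeyE (esD r m n) := by
  intro d τ h0 h1 h T hT _
  have h2 := EmpF_key (t := fun _ : Unit => (r : ℝ)) (c := fun _ => (r * m : ℝ)) (n := n)
    (fun _ => Nat.cast_nonneg _) (d := d) h0 h1 (h _ subset_rfl (reg_finite (by nlinarith)))
  exact h2.mono hT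

theorem esD_cl (r m : ℕ) : EmpA (esD r m 0) (Cl ((r * m : ℕ) : ℝ) (r : ℝ)) :=
  fun _ hT _ => (EmpF.of_empW (es_cl r m)).mono hT

/-- sorting by the numbers of the exponents in the rows -/
theorem empA_rows {w : ES} {S : Set (ℤ × ℤ)} {R : ℕ → ℕ} (hpos : ∀ p ∈ S, 0 ≤ p.2)
    (hR : ∀ (j : ℕ) (A : Finset ℤ), (∀ a ∈ A, ((a, (j : ℤ)) : ℤ × ℤ) ∈ S) → A.card ≤ R j)
    (h : EmpA w {p : ℤ × ℤ | 0 ≤ p.1 ∧ 0 ≤ p.2 ∧ p.1 < R p.2.toNat}) : EmpA w S := by
  refine K7.H2.RR.EmpA_sort ?_ h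
  intro k A hA p hp
  have hne : A.Nonempty := by rw [← card_pos]; omega
  obtain ⟨a, ha⟩ := hne
  have hk := hpos _ (hA a ha)
  simp only at hk
  obtain ⟨k, rfl⟩ := Int.eq_ofNat_of_zero_le hk
  refine ⟨by simp, hk, ?_⟩
  simp only [Int.toNat_natCast]
  have := hR k A hA
  exact_mod_cast (show p < R k by omega)

/-- **rows of expected lengths, and `C` exponents in one more row** -/
theorem empA_bump {r m n C : ℕ} {S : Set (ℤ × ℤ)} (hpos : ∀ p ∈ S, 0 ≤ p.2)
    (h1 : ∀ j : ℕ, j < m → ∀ A : Finset ℤ, (∀ a ∈ A, ((a, (j : ℤ)) : ℤ × ℤ) ∈ S) →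
      A.card ≤ r * (m - j))
    (h2 : ∀ A : Finset ℤ, (∀ a ∈ A, ((a, (m : ℤ)) : ℤ × ℤ) ∈ S) → A.card ≤ C)
    (h3 : ∀ j : ℕ, m < j → ∀ A : Finset ℤ, (∀ a ∈ A, ((a, (j : ℤ)) : ℤ × ℤ) ∈ S) → A.card ≤ 0)
    {P : ℕ → Set (ℤ × ℤ) → Prop} {hP : IndSys P} {h0 : P 0 ∅}
    (h : EmpA (esI hP h0 n) (Cl ((r * m : ℕ) : ℝ) (r : ℝ))) : EmpA (esI hP h0 (n + C)) S := by
  classical
  refine empA_rows (R := fun j => if j < m then r * (m - j) else if j = m then C else 0) hpos ?_ ?_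
  · intro j A hA
    split_ifs with h4 h5
    · exact h1 j h4 A hA
    · subst h5
      exact h2 A hA
    · exact h3 j (by omega) A hA
  · obtain ⟨T, hT⟩ : ∃ T : Finset (ℤ × ℤ), T = (range C).image fun x : ℕ => ((x : ℤ), (m : ℤ)) := ⟨_, rfl⟩
    have hc : T.card = C := by
      rw [hT, card_image_of_injective, card_range]
      intro x y hxy
      simpa using hxy
    rw [← hc]
    refine esI_add h ?_
    rintro ⟨a, j⟩ ⟨g1, g2, g3⟩
    simp only at g1 g2 g3
    obtain ⟨j, rfl⟩ := Int.eq_ofNat_of_zero_le g2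
    rw [Int.toNat_natCast] at g3
    split_ifs at g3 with h4 h5
    · left
      refine ⟨g1, g2, ?_⟩
      simp only
      have h6 : (a : ℝ) + 1 ≤ ((r * (m - j) : ℕ) : ℝ) := by exact_mod_cast g3
      push_cast [Nat.cast_sub h4.le] at h6 ⊢
      linarith
    · right
      rw [hT, mem_coe, mem_image]
      obtain ⟨a, rfl⟩ := Int.eq_ofNat_of_zero_le g1
      exact ⟨a, by rw [mem_range, ← hc]; exact_mod_cast g3, by rw [h5]⟩
    · exfalso
      push_cast at g3
      omega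

end Pool.Agent.H59.PF
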