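import Pool.Agent.H59.PF.Num
import Pool.Graph.R_seed8.TH183.QS.Wrap

set_option autoImplicit false

/-! The first flattening. -/

namespace Pool.Agent.H59.PF

open Pool.Agent.TH176.Nag Pool.Agent.TH183.QC Pool.Agent.TH183.QS
open Pool.Agent.TH183.QN (TT)

/-- the triangle before the first flattening -/
def T0 (K : ℝ) (d : ℕ) : Set (ℤ × ℤ) :=
  {m | 0 ≤ m.2 ∧ (m.1 : ℝ) + K * m.2 ≤ K * d / 3 ∧ (K - 9) * ((d : ℝ) / 3 - m.2) ≤ m.1}

/-- the set after the first flattening -/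
def GG (q : ℕ) (K : ℝ) (d : ℕ) : Set (ℤ × ℤ) :=
  {m | 0 ≤ m.2 ∧ (m.1 : ℝ) + K * m.2 ≤ K * d / 3 ∧
    ((1 ≤ m.1 ∧ m.2 + 1 ≤ q * m.1) ∨ (3 ∣ d ∧ m.1 = 0 ∧ m.2 = 0))}

section
variable {f h e q : ℕ} {K σ : ℝ}

theorem gg_up (P : Pr f h e q K σ) {d : ℕ} {t b T k : ℤ} (h1 : ((t, b) : ℤ × ℤ) ∈ T0 K d)
    (h2 : ((t, b + T) : ℤ × ℤ) ∈ T0 K d) (hk : 0 ≤ k) (hkT : k ≤ T) :
    ((t, k) : ℤ × ℤ) ∈ GG q K d := by
  have hK := P.K9
  have hK9 : 0 < K - 9 := by linarith
  have hq0 : (0 : ℝ) < q := by linarith [P.qR]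
  have hkq := P.kq
  obtain ⟨g1, g2, g3⟩ := h1
  obtain ⟨g4, g5, g6⟩ := h2
  simp only at g1 g2 g3 g4 g5 g6
  obtain ⟨u, hu⟩ : ∃ u : ℝ, u = (d : ℝ) / 3 - b := ⟨_, rfl⟩
  have hkR : (0 : ℝ) ≤ k := by exact_mod_cast hk
  have hkTR : (k : ℝ) ≤ T := by exact_mod_cast hkT
  have hbR : (0 : ℝ) ≤ b := by exact_mod_cast g1
  push_cast at g5 g6
  have e1 : (K - 9) * u ≤ t := by rw [hu]; exact g3
  have e0 : K * (u - k) = K * d / 3 - K * b - K * k := by rw [hu]; ring
  have e2 : (t : ℝ) ≤ K * (u - k) := by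
    have := mul_le_mul_of_nonneg_left hkTR (show (0 : ℝ) ≤ K by linarith)
    rw [e0]
    linarith
  have e3 : (t : ℝ) ≤ K * u := by nlinarith
  have hu0 : 0 ≤ u := by nlinarith
  have ht0 : (0 : ℝ) ≤ t := by nlinarith
  have f1 : 9 * u ≤ q * K * t := by
    have f1 : q * K * ((K - 9) * u) ≤ q * K * t := mul_le_mul_of_nonneg_left e1 (by positivity)
    have f2 : q * K * ((K - 9) * u) = 9 * u := by
      calc q * K * ((K - 9) * u) = (q * (K * (K - 9))) * u := by ring
        _ = 9 * u := by rw [hkq]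
    linarith
  have f3 : q * (K - 9) * t ≤ 9 * (u - k) := by
    have f3 : q * (K - 9) * t ≤ q * (K - 9) * (K * (u - k)) :=
      mul_le_mul_of_nonneg_left e2 (by positivity)
    have f4 : q * (K - 9) * (K * (u - k)) = 9 * (u - k) := by
      calc q * (K - 9) * (K * (u - k)) = (q * (K * (K - 9))) * (u - k) := by ring
        _ = 9 * (u - k) := by rw [hkq]
    linarith
  have f5 : q * K * t - q * (K - 9) * t = 9 * (q * t) := by ring
  have hkt : (k : ℝ) ≤ q * t := by linarith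
  refine ⟨hk, ?_, ?_⟩
  · simp only
    have : K * b ≥ 0 := by positivity
    linarith
  · simp only
    by_cases ht1 : t = 0
    · right
      rw [ht1] at e1 hkt
      simp only [Int.cast_zero, mul_zero] at e1 hkt
      have hu1 : u = 0 := by nlinarith
      have hk1 : k = 0 := by
        have : k ≤ 0 := by exact_mod_cast hkt
        omega
      refine ⟨?_, ht1, hk1⟩
      rw [hu] at hu1
      have h3 : (d : ℝ) = ((3 * b : ℤ) : ℝ) := by push_cast; linarith
      have h4 : (d : ℤ) = 3 * b := by exact_mod_cast h3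
      omega
    · left
      have ht2 : 0 ≤ t := by exact_mod_cast ht0
      refine ⟨by omega, ?_⟩
      have h5 : k ≤ q * t := by exact_mod_cast hkt
      by_contra hcon
      have h6 : k = q * t := by omega
      have h7 : (k : ℝ) = q * t := by exact_mod_cast h6
      have f6 : q * K * t = 9 * u := by linarith
      have h8 : ((q * t : ℤ) : ℝ) * K = ((3 * d - 9 * b : ℤ) : ℝ) := by
        rw [hu] at f6
        push_cast
        linarith
      have hqt : (q * t : ℤ) ≠ 0 := by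
        have : (0 : ℤ) < q := by exact_mod_cast hq0
        exact mul_ne_zero this.ne' ht1
      have h9 := (P.irr.intCast_mul hqt)
      rw [h8] at h9
      exact Int.not_irrational _ h9

theorem gg_col (P : Pr f h e q K σ) {d : ℕ} {t k : ℤ} (hm : ((t, k) : ℤ × ℤ) ∈ GG q K d) :
    ∃ b0 : ℤ, ∀ s : ℤ, b0 ≤ s → s ≤ b0 + k → ((t, s) : ℤ × ℤ) ∈ T0 K d := by
  have hK := P.K9
  have hK9 : 0 < K - 9 := by linarith
  have hq0 : (0 : ℝ) < q := by linarith [P.qR]
  have hkq := P.kq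
  obtain ⟨hk, h2, h3⟩ := hm
  simp only at hk h2 h3
  have hkR : (0 : ℝ) ≤ k := by exact_mod_cast hk
  -- the lowest point of the column segment
  obtain ⟨b, hb0, hb1, hb2⟩ : ∃ b : ℤ, 0 ≤ b ∧ (K - 9) * ((d : ℝ) / 3 - b) ≤ t ∧
      (t : ℝ) ≤ K * ((d : ℝ) / 3 - b - k) := by
    rcases h3 with ⟨h3, h4⟩ | ⟨h3, h4, h5⟩
    · have h4R : (k : ℝ) + 1 ≤ q * t := by exact_mod_cast h4
      have h3R : (1 : ℝ) ≤ t := by exact_mod_cast h3
      have e1 : t / K = q * (K - 9) * t / 9 := by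
        rw [div_eq_div_iff (by linarith) (by norm_num)]
        calc (t : ℝ) * 9 = t * (q * (K * (K - 9))) := by rw [hkq]
          _ = q * (K - 9) * t * K := by ring
      refine ⟨⌊(d : ℝ) / 3 - t / K - k⌋, ?_, ?_, ?_⟩
      · apply Int.floor_nonneg.2
        have : (t : ℝ) / K + k ≤ d / 3 := by
          have h6 : (t : ℝ) + K * k ≤ K * (d / 3) := by linarith
          have h7 : (t : ℝ) / K + k = (t + K * k) / K := by field_simp
          rw [h7, div_le_iff₀ (by linarith)]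
          linarith
        linarith
      · have h6 := Int.lt_floor_add_one ((d : ℝ) / 3 - t / K - k)
        have h7 : (d : ℝ) / 3 - (⌊(d : ℝ) / 3 - t / K - k⌋ : ℤ) < t / K + k + 1 := by linarith
        have h8 : t / K + k + 1 ≤ q * K * t / 9 := by
          rw [e1]
          have : q * K * t / 9 = q * (K - 9) * t / 9 + q * t := by ring
          rw [this]
          linarith
        have h9 : (K - 9) * (q * K * t / 9) = t := by
          calc (K - 9) * (q * K * t / 9) = (q * (K * (K - 9))) * t / 9 := by ring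
            _ = t := by rw [hkq]; ring
        have h10 := mul_le_mul_of_nonneg_left (show (d : ℝ) / 3 -
          (⌊(d : ℝ) / 3 - t / K - k⌋ : ℤ) ≤ q * K * t / 9 by linarith) hK9.le
        rw [h9] at h10
        exact h10
      · have h6 := Int.floor_le ((d : ℝ) / 3 - t / K - k)
        have h7 : (t : ℝ) / K ≤ d / 3 - (⌊(d : ℝ) / 3 - t / K - k⌋ : ℤ) - k := by linarith
        rw [div_le_iff₀ (by linarith)] at h7
        linarith
    · obtain ⟨e, he⟩ := h3
      refine ⟨e, by positivity, ?_, ?_⟩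
      · rw [h4, he]
        push_cast
        have : (3 : ℝ) * e / 3 - e = 0 := by ring
        rw [this, mul_zero]
      · rw [h4, h5, he]
        push_cast
        have : (3 : ℝ) * e / 3 - e - 0 = 0 := by ring
        rw [this, mul_zero]
  refine ⟨b, fun s hs1 hs2 => ⟨by simp only; omega, ?_, ?_⟩⟩
  · simp only
    have hs2' : (s : ℝ) ≤ b + k := by exact_mod_cast hs2
    have := mul_le_mul_of_nonneg_left hs2' (show (0 : ℝ) ≤ K by linarith)
    have e5 : K * ((d : ℝ) / 3 - b - k) = K * d / 3 - K * (b + k) := by ring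
    linarith
  · simp only
    have hs1' : (b : ℝ) ≤ s := by exact_mod_cast hs1
    have := mul_le_mul_of_nonneg_left hs1' hK9.le
    have e5 : ∀ y : ℝ, (K - 9) * ((d : ℝ) / 3 - y) = (K - 9) * (d / 3) - (K - 9) * y := by intro y; ring
    rw [e5] at hb1 ⊢
    linarith

/-- the triangle and the start of the key lemma -/
theorem t0_reg (P : Pr f h e q K σ) {d : ℕ} (a b : ℤ) :
    ((a, b) : ℤ × ℤ) ∈ Reg (-((d : ℝ) * (1 + (K / 3 - 3)))) (d * (2 - (K / 3 - 3)))
      (3 * (1 + (K / 3 - 3))) (3 * (2 - (K / 3 - 3))) ↔ ((2 * d - a - 6 * b, b) : ℤ × ℤ) ∈ T0 K d := by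
  have hK := P.K9
  constructor
  · rintro ⟨h1, h2, h3⟩
    simp only at h1 h2 h3
    refine ⟨h1, ?_, ?_⟩
    · simp only; push_cast; linarith
    · simp only; push_cast; linarith
  · rintro ⟨h1, h2, h3⟩
    simp only at h1 h2 h3
    push_cast at h2 h3
    refine ⟨h1, ?_, ?_⟩
    · simp only; linarith
    · simp only; linarith

theorem Pr.tau (P : Pr f h e q K σ) : 0 < K / 3 - 3 ∧ K / 3 - 3 < 1 ∧ Irrational (K / 3 - 3) := by
  refine ⟨by linarith [P.K9], by linarith [P.K10], ?_⟩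
  have h1 : K / 3 - 3 = K / ((3 : ℕ) : ℝ) - ((3 : ℕ) : ℝ) := by norm_num
  rw [h1]
  exact (P.irr.div_natCast (by norm_num)).sub_natCast 3

/-- the first flattening, independence -/
theorem surA_gg (P : Pr f h e q K σ) {w : SS} (key : KeyS w) {d : ℕ} (hS : SurA w (GG q K d)) :
    SurA w (TT d) := by
  obtain ⟨t0, t1, t2⟩ := P.tau
  refine key d (K / 3 - 3) t0 t1 t2 ?_
  have h1 : SurA w (T0 K d) := by
    refine SurA_flat 1 0 1 0 (by norm_num) ?_ hS
    rintro ⟨t, k⟩ hp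
    refine ⟨hp.1, ?_⟩
    obtain ⟨b0, hb⟩ := gg_col P hp
    refine ⟨b0, fun s h1 h2 => ?_⟩
    have := hb s h1 h2
    simpa using this
  refine h1.comap (-1) (-6) 0 1 (2 * d) 0 (by norm_num) ?_
  rintro ⟨t, b⟩ hm
  refine ⟨(2 * d - t - 6 * b, b), (t0_reg P _ _).2 ?_, ?_⟩
  · have e1 : 2 * (d : ℤ) - (2 * d - t - 6 * b) - 6 * b = t := by ring
    rw [e1]; exact hm
  · ext
    · simp only; ring
    · simp only; ring

/-- the first flattening, emptiness -/
theorem empA_gg (P : Pr f h e q K σ) {w : ES} (key : KeyE w) {d : ℕ} (hS : EmpA w (GG q K d)) :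
    EmpA w (TT d) := by
  obtain ⟨t0, t1, t2⟩ := P.tau
  refine key d (K / 3 - 3) t0 t1 ?_
  have h1 : EmpA w (T0 K d) := by
    refine EmpA_flat 1 0 1 0 (by norm_num) ?_ hS
    rintro ⟨t, b⟩ T k h1 h2 hk
    have h3 : ((t, b + T) : ℤ × ℤ) ∈ T0 K d := by
      have : ((t - 0 * T, b + 1 * T) : ℤ × ℤ) = (t, b + T) := by ext <;> simp
      rw [← this]; exact h2
    have h4 := gg_up P h1 h3 (Int.natCast_nonneg k) hk
    simpa using h4
  refine h1.comap (-1) (-6) 0 1 (2 * d) 0 (by norm_num) ?_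
  rintro ⟨a, b⟩ hm
  have h2 := (t0_reg P a b).1 hm
  have e1 : ((-1 * a + -6 * b + 2 * (d : ℤ), 0 * a + 1 * b + 0) : ℤ × ℤ) = (2 * d - a - 6 * b, b) := by
    ext
    · simp only; ring
    · simp only; ring
  simp only [e1]
  exact h2

end

end Pool.Agent.H59.PF
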