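import Pool.Agent.H59.PF.Count

set_option autoImplicit false

/-! Independence from the critical degree on. -/

namespace Pool.Agent.H59.PF

open Finset Pool.Agent.TH183.QC Pool.Agent.TH183.QS
open Pool.Agent.TH183.QN (TT)

section
variable {f h e q : ℕ} {K σ : ℝ}

/-- **the two flattenings**, independence -/
theorem surA_rows (P : Pr f h e q K σ) {w : SS} (key : KeyS w) {d M : ℕ}
    (ht : σ * (2 * M + 1) ≤ 2 * d + 3)
    (hS : SurA w (Op ((rr f e * M : ℕ) : ℝ) ((rr f e : ℕ) : ℝ))) : SurA w (TT d) := by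
  refine surA_gg P key ?_
  refine SurA.mono (S' := GGo q K d) ?_ (ggo_sub q K d)
  obtain ⟨u, v, huv⟩ := P.bez
  refine SurA_slabs (f : ℤ) (-(e : ℤ)) u v huv ?_ hS
  rintro ⟨a, j⟩ ⟨h1, h2, h3⟩
  simp only at h1 h2 h3
  refine ⟨h1, h2, ?_⟩
  obtain ⟨j, rfl⟩ := Int.eq_ofNat_of_zero_le h2
  refine ⟨BB f e q K (yy f e K d j), ?_, ?_⟩
  · have h4 := card_low P (d := d) (M := M) j ht
    have h5 : (a : ℤ) + rr f e * j < rr f e * M := by
      have : ((a + rr f e * j : ℤ) : ℝ) < ((rr f e * M : ℤ) : ℝ) := by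
        push_cast at h3 ⊢
        exact h3
      exact_mod_cast this
    simp only
    linarith
  · intro c hc
    obtain ⟨t0, k0, h4, h5⟩ := line_mem P hc
    refine ⟨-v * t0 + u * k0, fun s hs1 hs2 => ?_⟩
    have h6 := h5 (s - (-v * t0 + u * k0)) (by omega) (by simp only at hs2; omega)
    have e1 : u * c - -(e : ℤ) * s = t0 + e * (s - (-v * t0 + u * k0)) := by
      rw [← h4]; linear_combination t0 * huv
    have e2 : v * c + f * s = k0 + f * (s - (-v * t0 + u * k0)) := by
      rw [← h4]; linear_combination k0 * huv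
    rw [e1, e2]
    exact h6

end

/-! ### odd multiples -/

/-- `∑ min k w`, `1 ≤ w ≤ W` -/
def Ns (k W : ℕ) : ℕ := ∑ x ∈ range W, min k (W - x)

theorem Ns_succ (k W : ℕ) : Ns k (W + 1) = Ns k W + min k (W + 1) := by
  unfold Ns
  rw [sum_range_succ']
  simp only [Nat.sub_zero]
  congr 1
  refine sum_congr rfl fun x _ => ?_
  rw [Nat.add_sub_add_right]

theorem Ns_low {k W : ℕ} (hW : W ≤ k) : 2 * Ns k W = W * (W + 1) := by
  induction W with
  | zero => simp [Ns]
  | succ W ih =>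
    rw [Ns_succ, mul_add, ih (by omega), min_eq_right hW]
    ring

theorem Ns_high {k W : ℕ} (hW : k ≤ W) : 2 * Ns k W + k * k = 2 * k * W + k := by
  induction W, hW using Nat.le_induction with
  | base =>
    rw [Ns_low le_rfl]; ring
  | succ W hkW ih =>
    rw [Ns_succ, mul_add, min_eq_left (by omega)]
    linarith

/-- the exact row lengths -/
theorem Ns_odd {k l n : ℕ} (hk : k = 2 * l + 1) (hn : 1 ≤ n) : Ns k (k * n + l) = k ^ 2 * n := by
  have h1 : k ≤ k * n + l := by nlinarith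
  have h2 := Ns_high h1
  have h3 : 2 * Ns k (k * n + l) = 2 * (k ^ 2 * n) := by
    have e1 : 2 * k * (k * n + l) + k = 2 * (k ^ 2 * n) + k * (2 * l + 1) := by ring
    rw [e1, ← hk] at h2
    omega
  omega

/-- the lines -/
def Bk (r k j W : ℕ) : Finset ℤ :=
  ((range W).sigma fun x => range (min (r * k) (r * (W - x)))).image fun p =>
    (r * k : ℤ) * (j + p.1) + p.2

theorem mem_Bk {r k j W : ℕ} {c : ℤ} : c ∈ Bk r k j W ↔ ∃ x y : ℕ, x < W ∧ y < r * k ∧
    y < r * (W - x) ∧ c = (r * k : ℤ) * (j + x) + y := by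
  unfold Bk
  rw [mem_image]
  constructor
  · rintro ⟨⟨x, y⟩, h1, rfl⟩
    rw [mem_sigma, mem_range, mem_range, lt_min_iff] at h1
    exact ⟨x, y, h1.1, h1.2.1, h1.2.2, rfl⟩
  · rintro ⟨x, y, h1, h2, h3, rfl⟩
    exact ⟨⟨x, y⟩, by rw [mem_sigma, mem_range, mem_range, lt_min_iff]; exact ⟨h1, h2, h3⟩, rfl⟩

theorem card_Bk (r k j W : ℕ) : (Bk r k j W).card = r * Ns k W := by
  unfold Bk Ns
  rw [card_image_of_injOn, card_sigma, mul_sum]
  · refine sum_congr rfl fun x _ => ?_
    rw [card_range, Nat.mul_min_mul_left]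
  · rintro ⟨x, y⟩ h1 ⟨x', y'⟩ h2 heq
    rw [mem_coe, mem_sigma, mem_range, mem_range, lt_min_iff] at h1 h2
    simp only at heq h1 h2
    have h3 : (r * k) * x + y = (r * k) * x' + y' := by
      have : (((r * k) * x + y : ℕ) : ℤ) = (((r * k) * x' + y' : ℕ) : ℤ) := by
        push_cast
        linarith
      exact_mod_cast this
    have h4 : x = x' := by
      have e1 : ((r * k) * x + y) / (r * k) = x := by
        rw [Nat.mul_add_div (by omega), Nat.div_eq_of_lt h1.2.1, add_zero]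
      have e2 : ((r * k) * x' + y') / (r * k) = x' := by
        rw [Nat.mul_add_div (by omega), Nat.div_eq_of_lt h2.2.1, add_zero]
      rw [← e1, ← e2, h3]
    subst h4
    have h5 : y = y' := by omega
    subst h5
    rfl

/-- **odd multiples**, independence -/
theorem surA_odd {w : SS} {r k l m M : ℕ} (hk : k = 2 * l + 1) (hM : M = k * m + l)
    (hS : SurA w (Op ((r * k ^ 2 * m : ℕ) : ℝ) ((r * k ^ 2 : ℕ) : ℝ))) :
    SurA w (Op ((r * M : ℕ) : ℝ) (r : ℝ)) := by
  refine SurA_slabs 1 (r * k : ℤ) 1 0 (by ring) ?_ hS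
  rintro ⟨a, j⟩ ⟨h1, h2, h3⟩
  simp only at h1 h2 h3
  refine ⟨h1, h2, ?_⟩
  obtain ⟨j, rfl⟩ := Int.eq_ofNat_of_zero_le h2
  have h5 : (a : ℤ) + r * k ^ 2 * j < r * k ^ 2 * m := by
    have : ((a + r * k ^ 2 * j : ℤ) : ℝ) < ((r * k ^ 2 * m : ℤ) : ℝ) := by
      push_cast at h3 ⊢
      exact h3
    exact_mod_cast this
  have hjm : j < m := by
    by_contra hcon
    have h6 : (m : ℤ) ≤ j := by exact_mod_cast not_lt.1 hcon
    have h7 := mul_le_mul_of_nonneg_left h6 (show (0 : ℤ) ≤ r * k ^ 2 by positivity)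
    omega
  obtain ⟨n, rfl⟩ : ∃ n, m = j + n := ⟨m - j, by omega⟩
  have hW : M = k * j + (k * n + l) := by rw [hM]; ring
  refine ⟨Bk r k j (k * n + l), ?_, ?_⟩
  · rw [card_Bk, Ns_odd hk (by omega)]
    simp only
    push_cast at h5 ⊢
    linarith
  · intro c hc
    obtain ⟨x, y, hx, hy, hy2, rfl⟩ := mem_Bk.1 hc
    refine ⟨x, fun s hs1 hs2 => ?_⟩
    simp only at hs2
    have hy3 : (y : ℤ) < r * (k * n + l - x) := by
      have : (y : ℤ) < ((r * (k * n + l - x) : ℕ) : ℤ) := by exact_mod_cast hy2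
      push_cast [Nat.cast_sub hx.le] at this
      exact this
    obtain ⟨s', hs'⟩ : ∃ s' : ℤ, s' = s - x := ⟨_, rfl⟩
    have es : s = s' + x := by omega
    have hs0 : 0 ≤ s' := by omega
    have hsj : s' ≤ j := by omega
    have hkZ : (1 : ℤ) ≤ k := by omega
    have hrk : (0 : ℤ) ≤ r * k := by positivity
    have h8 : (r * k : ℤ) * s' ≤ r * k * j := mul_le_mul_of_nonneg_left hsj hrk
    refine ⟨?_, ?_, ?_⟩
    · simp only
      rw [es]
      have e1 : (1 : ℤ) * (r * k * (j + x) + y) - r * k * (s' + x) = r * k * j - r * k * s' + y := by ring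
      rw [e1]
      omega
    · simp only; omega
    · simp only
      have h9 : (1 : ℤ) * (r * k * (j + x) + y) - r * k * (s' + x) + r * (0 * (r * k * (j + x) + y) + 1 * (s' + x)) <
          r * M := by
        have e1 : (1 : ℤ) * (r * k * (j + x) + y) - r * k * (s' + x) + r * (0 * (r * k * (j + x) + y) + 1 * (s' + x)) =
            r * k * j - r * (k - 1) * s' + y + r * x := by ring
        rw [e1, hW]
        push_cast
        have h10 : 0 ≤ (r : ℤ) * (k - 1) * s' := by
          apply mul_nonneg (mul_nonneg (by positivity) (by omega)) hs0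
        linarith
      rw [es]
      have h10 : (((1 : ℤ) * (r * k * (j + x) + y) - r * k * (s' + x) +
          r * (0 * (r * k * (j + x) + y) + 1 * (s' + x)) : ℤ) : ℝ) < ((r * M : ℤ) : ℝ) := by
        exact_mod_cast h9
      push_cast at h10 ⊢
      exact h10

end Pool.Agent.H59.PF
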