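import Pool.Agent.H59.PF.First

set_option autoImplicit false

/-! The second flattening: the lines of direction `(e, f)`. -/

namespace Pool.Agent.H59.PF

open Finset

/-- the set after the first flattening, without the exceptional point -/
def GGo (q : ℕ) (K : ℝ) (d : ℕ) : Set (ℤ × ℤ) :=
  {m | 0 ≤ m.2 ∧ (m.1 : ℝ) + K * m.2 ≤ K * d / 3 ∧ 1 ≤ m.1 ∧ m.2 + 1 ≤ q * m.1}

theorem ggo_sub (q : ℕ) (K : ℝ) (d : ℕ) : GGo q K d ⊆ GG q K d :=
  fun _ hm => ⟨hm.1, hm.2.1, Or.inl hm.2.2⟩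

theorem gg_sub (q : ℕ) (K : ℝ) (d : ℕ) : GG q K d ⊆ GGo q K d ∪ {(0, 0)} := by
  rintro ⟨t, k⟩ ⟨h1, h2, h3⟩
  rcases h3 with h3 | h3
  · exact Or.inl ⟨h1, h2, h3⟩
  · right
    simp only at h3
    rw [Set.mem_singleton_iff, h3.2.1, h3.2.2]

theorem gg_eq (q : ℕ) (K : ℝ) (d : ℕ) (hd : ¬ 3 ∣ d) : GG q K d = GGo q K d := by
  ext ⟨t, k⟩
  constructor
  · rintro ⟨h1, h2, h3⟩
    rcases h3 with h3 | h3
    · exact ⟨h1, h2, h3⟩
    · exact absurd h3.1 hd
  · exact fun hm => ggo_sub q K d hm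

/-- the number of lines at the right end -/
noncomputable def nR (K Y : ℝ) (g : ℕ) : ℕ := ⌊Y - K * g⌋₊

/-- the number of lines at the left end -/
noncomputable def nL (e q : ℕ) (K Y : ℝ) (g : ℕ) : ℕ := ⌊(Y + K * (1 + g)) / (1 + q * K)⌋₊ - (e - 1)

/-- the lines at the right end -/
noncomputable def BR (f e : ℕ) (K Y : ℝ) : Finset ℤ :=
  ((range f).sigma fun g => range (nR K Y g)).image fun p => (f : ℤ) * (p.2 + 1) - e * p.1

/-- the lines at the left end -/
noncomputable def BL (f e q : ℕ) (K Y : ℝ) : Finset ℤ :=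
  ((range f).sigma fun g => range (nL e q K Y g)).image fun p => (e : ℤ) - f * (p.2 + e) + e * p.1

/-- the lines -/
noncomputable def BB (f e q : ℕ) (K Y : ℝ) : Finset ℤ := BR f e K Y ∪ BL f e q K Y

section
variable {f h e q : ℕ} {K σ : ℝ}

theorem mem_BR {Y : ℝ} {c : ℤ} : c ∈ BR f e K Y ↔ ∃ g i : ℕ, g < f ∧ i < nR K Y g ∧
    c = (f : ℤ) * (i + 1) - e * g := by
  unfold BR
  rw [mem_image]
  constructor
  · rintro ⟨⟨g, i⟩, h1, rfl⟩
    rw [mem_sigma, mem_range, mem_range] at h1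
    exact ⟨g, i, h1.1, h1.2, rfl⟩
  · rintro ⟨g, i, h1, h2, rfl⟩
    exact ⟨⟨g, i⟩, by rw [mem_sigma, mem_range, mem_range]; exact ⟨h1, h2⟩, rfl⟩

theorem mem_BL {Y : ℝ} {c : ℤ} : c ∈ BL f e q K Y ↔ ∃ g i : ℕ, g < f ∧ i < nL e q K Y g ∧
    c = (e : ℤ) - f * (i + e) + e * g := by
  unfold BL
  rw [mem_image]
  constructor
  · rintro ⟨⟨g, i⟩, h1, rfl⟩
    rw [mem_sigma, mem_range, mem_range] at h1
    exact ⟨g, i, h1.1, h1.2, rfl⟩
  · rintro ⟨g, i, h1, h2, rfl⟩
    exact ⟨⟨g, i⟩, by rw [mem_sigma, mem_range, mem_range]; exact ⟨h1, h2⟩, rfl⟩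

theorem Pr.inj (P : Pr f h e q K σ) {g g' : ℕ} {a b : ℤ} (hg : g < f) (hg' : g' < f)
    (heq : (f : ℤ) * a - e * g = f * b - e * g') : g = g' ∧ a = b := by
  have h1 : (f : ℤ) ∣ (g : ℤ) - g' := P.dvd ⟨a - b, by linear_combination (-1 : ℤ) * heq⟩
  have h2 : (g : ℤ) - g' = 0 := Int.eq_zero_of_abs_lt_dvd h1 (by rw [abs_lt]; omega)
  have h3 : (g : ℤ) = g' := by omega
  refine ⟨by exact_mod_cast h3, ?_⟩
  rw [h3] at heq
  have h4 : (f : ℤ) * a = f * b := by linarith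
  have h5 : (f : ℤ) ≠ 0 := by have := P.f1; omega
  exact mul_left_cancel₀ h5 h4

theorem card_BR (P : Pr f h e q K σ) (Y : ℝ) : (BR f e K Y).card = ∑ g ∈ range f, nR K Y g := by
  unfold BR
  rw [card_image_of_injOn, card_sigma]
  · simp
  · rintro ⟨g, i⟩ h1 ⟨g', i'⟩ h2 heq
    rw [mem_coe, mem_sigma, mem_range, mem_range] at h1 h2
    simp only at heq
    obtain ⟨rfl, h4⟩ := P.inj h1.1 h2.1 heq
    have h5 : i = i' := by omega
    subst h5
    rfl

theorem card_BL (P : Pr f h e q K σ) (Y : ℝ) : (BL f e q K Y).card = ∑ g ∈ range f, nL e q K Y g := by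
  unfold BL
  rw [card_image_of_injOn, card_sigma]
  · simp
  · rintro ⟨g, i⟩ h1 ⟨g', i'⟩ h2 heq
    rw [mem_coe, mem_sigma, mem_range, mem_range] at h1 h2
    simp only at heq
    obtain ⟨rfl, h4⟩ := P.inj h1.1 h2.1 (a := (i : ℤ) + e) (b := (i' : ℤ) + e) (by linarith)
    have h5 : i = i' := by omega
    subst h5
    rfl

theorem disj (P : Pr f h e q K σ) (Y : ℝ) : Disjoint (BR f e K Y) (BL f e q K Y) := by
  rw [Finset.disjoint_left]
  intro c h1 h2
  obtain ⟨g, i, h3, -, h4⟩ := mem_BR.1 h1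
  obtain ⟨g', i', h5, -, h6⟩ := mem_BL.1 h2
  have h7 : (f : ℤ) * (i + 1 + (i' + e)) = e * (1 + g + g') := by linarith
  have h8 : (f : ℤ) ∣ 1 + (g : ℤ) + g' := P.dvd ⟨_, h7.symm⟩
  obtain ⟨z, hz⟩ := h8
  have hf := P.f1
  have he := P.e1
  have hfz : (1 : ℤ) ≤ f := by exact_mod_cast hf
  have hz1 : z < 2 := by
    by_contra hcon
    have h9 : (f : ℤ) * 2 ≤ f * z := mul_le_mul_of_nonneg_left (not_lt.1 hcon) (by omega)
    omega
  have hz0 : 0 < z := by
    by_contra hcon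
    have h9 : (f : ℤ) * z ≤ f * 0 := mul_le_mul_of_nonneg_left (not_lt.1 hcon) (by omega)
    omega
  have hz2 : z = 1 := by omega
  rw [hz2, mul_one] at hz
  rw [hz, mul_comm (e : ℤ)] at h7
  have h9 := mul_left_cancel₀ (show (f : ℤ) ≠ 0 by omega) h7
  omega

theorem card_BB (P : Pr f h e q K σ) (Y : ℝ) :
    (BB f e q K Y).card = ∑ g ∈ range f, (nR K Y g + nL e q K Y g) := by
  unfold BB
  rw [card_union_of_disjoint (disj P Y), card_BR P, card_BL P, sum_add_distrib]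

theorem Pr.wq (P : Pr f h e q K σ) : ∃ w : ℕ, q = w * f ∧ w * e = 2 := by
  have h1 := P.qe
  have h2 := P.e2
  have h3 := P.e1
  interval_cases e
  · exact ⟨2, by omega, rfl⟩
  · exact ⟨1, by omega, rfl⟩

/-- the lines contain long intervals -/
theorem line_mem (P : Pr f h e q K σ) {d j : ℕ} {c : ℤ} (hc : c ∈ BB f e q K (yy f e K d j)) :
    ∃ t0 k0 : ℤ, f * t0 - e * k0 = c ∧ ∀ s : ℤ, 0 ≤ s → s ≤ j → ((t0 + e * s, k0 + f * s) : ℤ × ℤ) ∈ GGo q K d := by
  have hK := P.K9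
  have hf1 : (1 : ℤ) ≤ f := by exact_mod_cast P.f1
  have he1 : (1 : ℤ) ≤ e := by exact_mod_cast P.e1
  have hfq : (f : ℤ) ≤ q := by exact_mod_cast P.fq
  have hqe : (q : ℤ) * e = 2 * f := by exact_mod_cast P.qe
  have hq0 : (0 : ℤ) < q := by omega
  have hD := P.D0
  have hKf : 0 ≤ (e : ℝ) + K * f := by positivity
  have hY : ∀ s : ℤ, s ≤ j → (e + K * f) * (s : ℝ) ≤ (e + K * f) * j := by
    intro s hs
    have : (s : ℝ) ≤ j := by exact_mod_cast hs
    exact mul_le_mul_of_nonneg_left this hKf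
  unfold BB at hc
  rw [mem_union] at hc
  rcases hc with hc | hc
  · obtain ⟨g, i, hg, hi, rfl⟩ := mem_BR.1 hc
    refine ⟨i + 1, g, rfl, fun s hs0 hsj => ?_⟩
    have h1 : ((i + 1 : ℕ) : ℝ) ≤ yy f e K d j - K * g := by
      have h2 : i + 1 ≤ nR K (yy f e K d j) g := hi
      unfold nR at h2
      rw [Nat.le_floor_iff' (by omega)] at h2
      exact h2
    unfold yy at h1
    push_cast at h1
    have h2 := hY s hsj
    have hes : 0 ≤ (e : ℤ) * s := mul_nonneg (by omega) hs0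
    have hfs : 0 ≤ (f : ℤ) * s := mul_nonneg (by omega) hs0
    refine ⟨?_, ?_, ?_, ?_⟩
    · simp only; omega
    · simp only
      push_cast
      linarith
    · simp only; omega
    · simp only
      have e1 : (q : ℤ) * ((i : ℤ) + 1 + e * s) = q * i + q + 2 * (f * s) := by
        linear_combination s * hqe
      rw [e1]
      have : 0 ≤ (q : ℤ) * i := by positivity
      omega
  · obtain ⟨g, i, hg, hi, rfl⟩ := mem_BL.1 hc
    refine ⟨i + e, q * (i + e) - 1 - g, by linear_combination (-(i : ℤ) - e) * hqe, fun s hs0 hsj => ?_⟩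
    have h1 : ((i + e : ℕ) : ℝ) ≤ (yy f e K d j + K * (1 + g)) / (1 + q * K) := by
      unfold nL at hi
      have h3 := P.e1
      have h2 : i + e ≤ ⌊(yy f e K d j + K * (1 + g)) / (1 + q * K)⌋₊ := by omega
      rw [Nat.le_floor_iff' (by omega)] at h2
      exact h2
    rw [le_div_iff₀ hD] at h1
    unfold yy at h1
    push_cast at h1
    have h2 := hY s hsj
    have hes : 0 ≤ (e : ℤ) * s := mul_nonneg (by omega) hs0
    have hfs : 0 ≤ (f : ℤ) * s := mul_nonneg (by omega) hs0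
    have hqi : (q : ℤ) * 1 ≤ q * (i + e) := mul_le_mul_of_nonneg_left (by omega) (by omega)
    refine ⟨?_, ?_, ?_, ?_⟩
    · simp only; omega
    · simp only
      push_cast
      linarith
    · simp only; omega
    · simp only
      have e1 : (q : ℤ) * ((i : ℤ) + e + e * s) = q * (i + e) + 2 * (f * s) := by
        linear_combination s * hqe
      rw [e1]
      omega

/-- only these lines contain long intervals -/
theorem mem_line (P : Pr f h e q K σ) {d j : ℕ} {t k T : ℤ} (h1 : ((t, k) : ℤ × ℤ) ∈ GGo q K d)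
    (h2 : (t + e * T : ℝ) + K * (k + f * T) ≤ K * d / 3) (hj : (j : ℤ) ≤ T) :
    (f : ℤ) * t - e * k ∈ BB f e q K (yy f e K d j) := by
  have hK := P.K9
  have hf1 : (1 : ℤ) ≤ f := by exact_mod_cast P.f1
  have he1 : (1 : ℤ) ≤ e := by exact_mod_cast P.e1
  have hqe : (q : ℤ) * e = 2 * f := by exact_mod_cast P.qe
  obtain ⟨w, hw, hwe⟩ := P.wq
  have hwZ : (q : ℤ) = w * f := by exact_mod_cast hw
  have hweZ : (w : ℤ) * e = 2 := by exact_mod_cast hwe
  have hD := P.D0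
  have hKf : 0 ≤ (e : ℝ) + K * f := by positivity
  obtain ⟨g1, g2, g3, g4⟩ := h1
  simp only at g1 g2 g3 g4
  -- the lowest point above the axis
  obtain ⟨i0, g, hi0, hg, hk⟩ : ∃ (i0 : ℤ) (g : ℕ), 0 ≤ i0 ∧ g < f ∧ k = f * i0 + g := by
    refine ⟨k / f, (k % f).toNat, Int.ediv_nonneg g1 (by omega), ?_, ?_⟩
    · have h3 := Int.emod_lt_of_pos k (show (0 : ℤ) < f by omega)
      have h4 := Int.emod_nonneg k (show (f : ℤ) ≠ 0 by omega)
      omega
    · have h4 := Int.emod_nonneg k (show (f : ℤ) ≠ 0 by omega)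
      have h5 := Int.mul_ediv_add_emod k f
      omega
  obtain ⟨t', ht'⟩ : ∃ t' : ℤ, t' = t - e * i0 := ⟨_, rfl⟩
  have ht : t = t' + e * i0 := by rw [ht']; ring
  have hc : (f : ℤ) * t - e * k = f * t' - e * g := by rw [ht, hk]; ring
  rw [hc]
  unfold BB
  rw [mem_union]
  rcases lt_or_ge 0 t' with hpos | hneg
  · left
    rw [mem_BR]
    obtain ⟨i, hi⟩ := Int.eq_ofNat_of_zero_le (show 0 ≤ t' - 1 by omega)
    refine ⟨g, i, hg, ?_, by rw [← hi]; ring⟩
    unfold nR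
    rw [Nat.lt_iff_add_one_le, Nat.le_floor_iff' (by omega)]
    have hjR : (j : ℝ) ≤ (i0 + T : ℤ) := by exact_mod_cast (show (j : ℤ) ≤ i0 + T by omega)
    have h3 := mul_le_mul_of_nonneg_left hjR hKf
    have hiR : (i : ℝ) = t' - 1 := by exact_mod_cast hi.symm
    have htR : (t : ℝ) = t' + e * i0 := by exact_mod_cast ht
    have hkR : (k : ℝ) = f * i0 + g := by exact_mod_cast hk
    unfold yy
    push_cast at h3 ⊢
    rw [hiR]
    rw [htR, hkR] at h2
    linarith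
  · right
    rw [mem_BL]
    obtain ⟨i, hi⟩ := Int.eq_ofNat_of_zero_le (show 0 ≤ -t' by omega)
    obtain ⟨g', hg'⟩ : ∃ g' : ℕ, g' = f - 1 - g := ⟨_, rfl⟩
    have hg'Z : (g' : ℤ) = f - 1 - g := by omega
    have ht'i : t' = -(i : ℤ) := by omega
    refine ⟨g', i, by omega, ?_, by rw [hg'Z, ht'i]; ring⟩
    -- the steps from the lowest point of the set
    obtain ⟨i1, hi1⟩ : ∃ i1 : ℤ, i1 = i0 + 1 - w * (i + e) := ⟨_, rfl⟩
    have h5 : (f : ℤ) * i1 = f * i0 + f - q * (i + e) := by rw [hi1, hwZ]; ring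
    have h6 : 0 ≤ i1 := by
      by_contra hcon
      have h7 : (f : ℤ) * i1 ≤ f * (-1) := mul_le_mul_of_nonneg_left (by omega) (by omega)
      have h8 : (q : ℤ) * t = 2 * (f * i0) - q * i := by
        rw [ht, ht'i]; linear_combination i0 * hqe
      have h9 : (q : ℤ) * (i + e) = q * i + 2 * f := by linear_combination hqe
      rw [hk, h8] at g4
      rw [h9] at h5
      omega
    have h10 : t = (i + e) + e * i1 := by
      rw [hi1, ht, ht'i]; linear_combination ((i : ℤ) + e) * hweZ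
    have h11 : k = (q * (i + e) - 1 - g') + f * i1 := by
      rw [h5, hk, hg'Z]; ring
    have hjR : (j : ℝ) ≤ (i1 + T : ℤ) := by exact_mod_cast (show (j : ℤ) ≤ i1 + T by omega)
    have h3 := mul_le_mul_of_nonneg_left hjR hKf
    have htR : (t : ℝ) = (i + e) + e * i1 := by exact_mod_cast h10
    have hkR : (k : ℝ) = (q * (i + e) - 1 - g') + f * i1 := by exact_mod_cast h11
    have h12 : ((i + e : ℕ) : ℝ) ≤ (yy f e K d j + K * (1 + g')) / (1 + q * K) := by
      rw [le_div_iff₀ hD]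
      unfold yy
      push_cast at h3 ⊢
      rw [htR, hkR] at h2
      linarith
    have h13 : i + e ≤ ⌊(yy f e K d j + K * (1 + g')) / (1 + q * K)⌋₊ := Nat.le_floor h12
    unfold nL
    have := P.e1
    omega

end

end Pool.Agent.H59.PF
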