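import Pool.Agent.H59.PF.Dim

set_option autoImplicit false

/-! The family `r = 9 a ^ 2 + 2 a j`, `a` odd, `j ∣ 2 a`. -/

namespace Pool.Agent.H59.PF

open Finset Polynomial Pool.Agent.TH176.Nag Pool.Agent.TH603.Sur Pool.Agent.TH183.QC
open Pool.Agent.TH183.QS Pool.Agent.TH183.QI Pool.Agent.H932R2 Pool.Agent.H932R3
open Pool.Agent.TH183.QN (TT)

universe u

/-- `9 f ^ 2 + 2 e f` is not a square -/
theorem rr_nonsq {f e : ℕ} (hf : 1 ≤ f) (h1 : 1 ≤ e) (h2 : e ≤ 2) : ¬ IsSquare (rr f e) := by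
  unfold rr
  rintro ⟨x, hx⟩
  have h3 : 3 * f < x := by
    by_contra hcon
    have := Nat.mul_le_mul (not_lt.1 hcon) (not_lt.1 hcon)
    nlinarith
  have h4 : x < 3 * f + 1 := by
    by_contra hcon
    have := Nat.mul_le_mul (not_lt.1 hcon) (not_lt.1 hcon)
    nlinarith
  omega

/-- the parameters exist -/
theorem exists_pr {f h e q : ℕ} (hf : f = 2 * h + 1) (h1 : 1 ≤ e) (h2 : e ≤ 2) (hq : q * e = 2 * f) :
    ∃ K : ℝ, Pr f h e q K (Real.sqrt (rr f e : ℕ)) := by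
  have hf1 : 1 ≤ f := by omega
  have hfR : (1 : ℝ) ≤ f := by exact_mod_cast hf1
  have heR1 : (1 : ℝ) ≤ e := by exact_mod_cast h1
  have heR2 : (e : ℝ) ≤ 2 := by exact_mod_cast h2
  have hqR : (q : ℝ) * e = 2 * f := by exact_mod_cast hq
  obtain ⟨σ, hσ⟩ : ∃ σ, σ = Real.sqrt (rr f e : ℕ) := ⟨_, rfl⟩
  rw [← hσ]
  have hrr : ((rr f e : ℕ) : ℝ) = 9 * f ^ 2 + 2 * e * f := by unfold rr; push_cast; ring
  have hs : σ ^ 2 = 9 * f ^ 2 + 2 * e * f := by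
    rw [hσ, Real.sq_sqrt (Nat.cast_nonneg _), hrr]
  have hs0 : 0 < σ := by
    rw [hσ]
    apply Real.sqrt_pos.2
    rw [hrr]
    positivity
  have hs1 : 3 * f < σ := by
    by_contra hcon
    push Not at hcon
    have : σ ^ 2 ≤ (3 * f) ^ 2 := by
      apply pow_le_pow_left₀ hs0.le hcon
    nlinarith
  have hs2 : 3 * σ < 11 * f := by
    by_contra hcon
    push Not at hcon
    have : (11 * (f : ℝ)) ^ 2 ≤ (3 * σ) ^ 2 := by
      apply pow_le_pow_left₀ (by positivity) hcon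
    nlinarith
  have hK2 : 2 * (f : ℝ) * ((9 * f + 3 * σ) / (2 * f)) = 9 * f + 3 * σ := by
    field_simp
  refine ⟨(9 * f + 3 * σ) / (2 * f), ⟨hf, h1, h2, hq, ?_, ?_, ?_, hs, hs0, ?_, ?_⟩⟩
  · rw [lt_div_iff₀ (by linarith)]; linarith
  · rw [div_lt_iff₀ (by linarith)]; linarith
  · have h5 : (q : ℝ) = 2 * f / e := by rw [eq_div_iff (by linarith)]; exact hqR
    rw [h5]
    have hf0 : (f : ℝ) ≠ 0 := by positivity
    have he0 : (e : ℝ) ≠ 0 := by positivity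
    field_simp
    linear_combination 9 * hs
  · have hf0 : (f : ℝ) ≠ 0 := by positivity
    field_simp
    linear_combination 3 * hs
  · have h3 := irrational_sqrt_natCast_iff.2 (rr_nonsq hf1 h1 h2)
    rw [← hσ] at h3
    have h4 : (9 * f + 3 * σ) / (2 * (f : ℝ)) = (((3 : ℕ) : ℝ) * σ + ((9 * f : ℕ) : ℝ)) / ((2 * f : ℕ) : ℝ) := by
      push_cast
      ring
    rw [h4]
    exact ((h3.natCast_mul (by norm_num)).add_natCast _).div_natCast (by omega)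

/-- the two types of parameters -/
theorem exists_split {a j : ℕ} (ha : Odd a) (hj : j ∣ 2 * a) : ∃ f h e q k l : ℕ,
    f = 2 * h + 1 ∧ k = 2 * l + 1 ∧ 1 ≤ e ∧ e ≤ 2 ∧ q * e = 2 * f ∧ a = f * k ∧ j = e * k := by
  obtain ⟨q, hq⟩ := hj
  have ha' := ha
  obtain ⟨b, hb⟩ := ha
  rcases Nat.even_or_odd q with he | ho
  · obtain ⟨f, hf⟩ := he
    have h1 : a = j * f := by rw [hf] at hq; nlinarith
    rw [h1, Nat.odd_mul] at ha'
    obtain ⟨⟨l, hl⟩, ⟨h, hh⟩⟩ := ha'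
    exact ⟨f, h, 1, q, j, l, hh, hl, le_rfl, by norm_num, by omega, by rw [h1]; ring, by ring⟩
  · have h1 : Even (j * q) := by rw [← hq]; exact even_two_mul a
    have h2 : Even j := by
      rcases Nat.even_mul.1 h1 with h | h
      · exact h
      · exact absurd h (Nat.not_even_iff_odd.2 ho)
    obtain ⟨k, hk⟩ := h2
    have h3 : a = k * q := by rw [hk] at hq; nlinarith
    rw [h3, Nat.odd_mul] at ha'
    obtain ⟨⟨l, hl⟩, ⟨h, hh⟩⟩ := ha'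
    exact ⟨q, h, 2, q, k, l, hh, hl, by norm_num, le_rfl, by ring, by rw [h3]; ring, by omega⟩

theorem sqrt_scale (f e k : ℕ) : Real.sqrt ((rr f e * k ^ 2 : ℕ) : ℝ) = k * Real.sqrt (rr f e : ℕ) := by
  rw [Nat.cast_mul, Nat.cast_pow, mul_comm, Real.sqrt_mul (by positivity), Real.sqrt_sq (Nat.cast_nonneg k)]

theorem rr_scale {a j f e k : ℕ} (ha : a = f * k) (hj : j = e * k) :
    9 * a ^ 2 + 2 * a * j = rr f e * k ^ 2 := by
  unfold rr
  rw [ha, hj]; ring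

/-- **independence from the critical degree on** -/
theorem fam_ind {a j : ℕ} (ha : Odd a) (hj : j ∣ 2 * a) {m d : ℕ}
    (ht : Real.sqrt ((9 * a ^ 2 + 2 * a * j : ℕ) : ℝ) * (2 * m + 1) ≤ 2 * d + 3) :
    IndAt (9 * a ^ 2 + 2 * a * j) m d := by
  obtain ⟨f, h, e, q, k, l, hf, hk, he1, he2, hq, hak, hjk⟩ := exists_split ha hj
  rw [rr_scale hak hjk] at ht ⊢
  obtain ⟨K, P⟩ := exists_pr hf he1 he2 hq
  rw [sqrt_scale] at ht
  refine IndAt.of (surA_rows P (keyS _ m) (M := k * m + l) ?_ (surA_odd hk rfl (ss_op _ m)))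
  have hkR : (k : ℝ) = 2 * l + 1 := by rw [hk]; push_cast; ring
  calc Real.sqrt (rr f e : ℕ) * (2 * ((k * m + l : ℕ) : ℝ) + 1)
      = k * Real.sqrt (rr f e : ℕ) * (2 * m + 1) + Real.sqrt (rr f e : ℕ) * ((2 * l + 1) - k) := by
        push_cast; ring
    _ ≤ 2 * d + 3 := by rw [hkR, sub_self, mul_zero, add_zero, ← hkR]; exact ht

/-- the numbers of the second flattening -/
theorem two_Ns {k l : ℕ} (hk : k = 2 * l + 1) : 8 * Ns k l + 1 = k ^ 2 := by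
  have h1 := Ns_low (show l ≤ k by omega)
  have h2 : 8 * Ns k l + 1 = 4 * (2 * Ns k l) + 1 := by ring
  rw [h2, h1, hk]; ring

/-- **few forms below the critical degree** -/
theorem fam_low {a j : ℕ} (ha : Odd a) (hj : j ∣ 2 * a) {m d : ℕ}
    (ht : 2 * d + 3 < Real.sqrt ((9 * a ^ 2 + 2 * a * j : ℕ) : ℝ) * (2 * m + 1))
    (ht2 : Real.sqrt ((9 * a ^ 2 + 2 * a * j : ℕ) : ℝ) * (2 * m + 1) ≤ 2 * d + 3 + 2) :
    ∃ n : ℕ, 8 * n + 1 ≤ 9 * a ^ 2 + 2 * a * j ∧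
      EmpF n (fun _ : Unit => ((9 * a ^ 2 + 2 * a * j : ℕ) : ℝ))
        (fun _ => ((9 * a ^ 2 + 2 * a * j : ℕ) * m : ℝ)) (TT d) := by
  obtain ⟨f, h, e, q, k, l, hf, hk, he1, he2, hq, hak, hjk⟩ := exists_split ha hj
  rw [rr_scale hak hjk] at ht ht2 ⊢
  obtain ⟨K, P⟩ := exists_pr hf he1 he2 hq
  rw [sqrt_scale] at ht ht2
  have hkR : (k : ℝ) = 2 * l + 1 := by rw [hk]; push_cast; ring
  have hM : Real.sqrt (rr f e : ℕ) * (2 * ((k * m + l : ℕ) : ℝ) + 1) =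
      k * Real.sqrt (rr f e : ℕ) * (2 * m + 1) := by
    have : Real.sqrt (rr f e : ℕ) * (2 * ((k * m + l : ℕ) : ℝ) + 1) =
      k * Real.sqrt (rr f e : ℕ) * (2 * m + 1) + Real.sqrt (rr f e : ℕ) * ((2 * l + 1) - k) := by
        push_cast; ring
    rw [this, hkR, sub_self, mul_zero, add_zero]
  rw [← hM] at ht ht2
  have h1 : EmpA (esD (rr f e * k ^ 2) m (0 + rr f e * Ns k l))
      (Cl ((rr f e * (k * m + l) : ℕ) : ℝ) ((rr f e : ℕ) : ℝ)) :=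
    empA_odd (Nat.succ_le_of_lt (by have := P.f1; unfold rr; positivity)) hk rfl (esD_cl _ m)
  have h2 : EmpA (esD (rr f e * k ^ 2) m (0 + rr f e * Ns k l +
      (BB f e q K (yy f e K d (k * m + l : ℕ))).card + 1)) (GG q K d) := empA_two P ht ht2 h1
  have h3 := empA_gg P (keyD _ m _) h2
  refine ⟨_, ?_, h3 _ subset_rfl (TT_ncard d).1⟩
  have h4 := card_top P (d := d) (M := k * m + l) ht
  have h5 := two_Ns hk
  have h6 : rr f e * k ^ 2 = 8 * (rr f e * Ns k l) + rr f e := by rw [← h5]; ring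
  rw [h6]
  omega

/-- **the family**, for general collisions -/
theorem fam_coll {a j : ℕ} (ha : Odd a) (hj : j ∣ 2 * a) (m : ℕ) (L : Type u) [Field L] [CharZero L] :
    ∃ F : MvPolynomial (Fin (9 * a ^ 2 + 2 * a * j + 1)) L, F ≠ 0 ∧
      ∀ (c : L) (b : Fin (9 * a ^ 2 + 2 * a * j) → L),
        MvPolynomial.eval (Fin.cons c b : Fin (9 * a ^ 2 + 2 * a * j + 1) → L) F ≠ 0 →
        (∀ d : ℕ, Real.sqrt ((9 * a ^ 2 + 2 * a * j : ℕ) : ℝ) * (2 * m + 1) ≤ 2 * d + 3 →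
          JetDim (9 * a ^ 2 + 2 * a * j) m c b d) ∧
        (∀ d : ℕ, 2 * d + 3 < Real.sqrt ((9 * a ^ 2 + 2 * a * j : ℕ) : ℝ) * (2 * m + 1) →
          8 * Module.finrank L ↥(MvPolynomial.homogeneousSubmodule (Fin 3) L d ⊓
          (Submodule.restrictScalars L (jetIdeal m c b)).comap (deh L).toLinearMap) + 1 ≤
          9 * a ^ 2 + 2 * a * j) := by
  have ha1 : 1 ≤ a := by obtain ⟨b, hb⟩ := ha; omega
  have hr : 0 < 9 * a ^ 2 + 2 * a * j := by positivity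
  obtain ⟨F, hF, hF'⟩ := coll_wrap (r := 9 * a ^ 2 + 2 * a * j) (m := m) hr
    (PL := fun _ => False) (PH := fun d : ℕ => Real.sqrt ((9 * a ^ 2 + 2 * a * j : ℕ) : ℝ) * (2 * m + 1) ≤ 2 * d + 3)
    ⟨0, fun _ h => h.elim⟩ (fun _ h => h.elim) (fun d hd => fam_ind ha hj hd) L
  have hex : ∃ G : MvPolynomial (Fin (9 * a ^ 2 + 2 * a * j + 1)) L, G ≠ 0 ∧
      ∀ (c : L) (b : Fin (9 * a ^ 2 + 2 * a * j) → L),
        MvPolynomial.eval (Fin.cons c b : Fin (9 * a ^ 2 + 2 * a * j + 1) → L) G ≠ 0 →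
        ∀ d : ℕ, 2 * d + 3 < Real.sqrt ((9 * a ^ 2 + 2 * a * j : ℕ) : ℝ) * (2 * m + 1) →
          8 * Module.finrank L ↥(MvPolynomial.homogeneousSubmodule (Fin 3) L d ⊓
          (Submodule.restrictScalars L (jetIdeal m c b)).comap (deh L).toLinearMap) + 1 ≤
          9 * a ^ 2 + 2 * a * j := by
    classical
    by_cases h0 : ∃ d : ℕ, 2 * d + 3 < Real.sqrt ((9 * a ^ 2 + 2 * a * j : ℕ) : ℝ) * (2 * m + 1)
    · obtain ⟨d1, hd1⟩ := h0
      obtain ⟨N, hN⟩ : ∃ N : ℕ, ∀ d : ℕ,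
          2 * d + 3 < Real.sqrt ((9 * a ^ 2 + 2 * a * j : ℕ) : ℝ) * (2 * m + 1) → d ≤ N := by
        refine ⟨⌈Real.sqrt ((9 * a ^ 2 + 2 * a * j : ℕ) : ℝ) * (2 * m + 1)⌉₊, fun d hd => ?_⟩
        have h1 := Nat.le_ceil (Real.sqrt ((9 * a ^ 2 + 2 * a * j : ℕ) : ℝ) * (2 * m + 1))
        have h3 : (0 : ℝ) ≤ d := Nat.cast_nonneg d
        have h4 : (d : ℝ) ≤ ⌈Real.sqrt ((9 * a ^ 2 + 2 * a * j : ℕ) : ℝ) * (2 * m + 1)⌉₊ := by linarith
        exact_mod_cast h4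
      have h1 := Nat.findGreatest_spec
        (P := fun d : ℕ => 2 * d + 3 < Real.sqrt ((9 * a ^ 2 + 2 * a * j : ℕ) : ℝ) * (2 * m + 1)) (hN d1 hd1) hd1
      obtain ⟨D, hD⟩ : ∃ D, D = Nat.findGreatest
        (fun d : ℕ => 2 * d + 3 < Real.sqrt ((9 * a ^ 2 + 2 * a * j : ℕ) : ℝ) * (2 * m + 1)) N := ⟨_, rfl⟩
      rw [← hD] at h1
      have h2 : Real.sqrt ((9 * a ^ 2 + 2 * a * j : ℕ) : ℝ) * (2 * m + 1) ≤ 2 * D + 3 + 2 := by
        by_contra hcon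
        push Not at hcon
        have h3 : 2 * ((D + 1 : ℕ) : ℝ) + 3 < Real.sqrt ((9 * a ^ 2 + 2 * a * j : ℕ) : ℝ) * (2 * m + 1) := by
          push_cast; push_cast at hcon; linarith
        have h4 := Nat.le_findGreatest (P := fun d : ℕ => 2 * d + 3 <
          Real.sqrt ((9 * a ^ 2 + 2 * a * j : ℕ) : ℝ) * (2 * m + 1)) (hN _ h3) h3
        rw [← hD] at h4
        omega
      obtain ⟨n, hn, hE⟩ := fam_low ha hj h1 h2
      obtain ⟨G, hG, hG'⟩ := coll_low hr hE L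
      refine ⟨G, hG, fun c b hc d hd => ?_⟩
      have h5 : d ≤ D := by
        rw [hD]
        exact Nat.le_findGreatest (hN d hd) hd
      have h6 := hG' c b hc d h5
      omega
    · push Not at h0
      exact ⟨1, one_ne_zero, fun c b _ d hd => absurd hd (not_lt.2 (h0 d))⟩
  obtain ⟨G, hG, hG'⟩ := hex
  refine ⟨F * G, mul_ne_zero hF hG, fun c b hc => ?_⟩
  rw [map_mul] at hc
  exact ⟨fun d hd => hF' c b (left_ne_zero_of_mul hc) d (Or.inr hd),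
    fun d hd => hG' c b (right_ne_zero_of_mul hc) d hd⟩

end Pool.Agent.H59.PF
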