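import Mathlib

set_option autoImplicit false

/-! The parameters of two exact flattenings for `r = 9 f ^ 2 + 2 e f`, `f` odd, `e = 1, 2`. -/

namespace Pool.Agent.H59.PF

/-- the parameters: `f = 2 h + 1`, `e = 1` or `2`, `q e = 2 f`, the slope `K` and the square root `σ`
of the number of points -/
structure Pr (f h e q : ℕ) (K σ : ℝ) : Prop where
  hf : f = 2 * h + 1
  e1 : 1 ≤ e
  e2 : e ≤ 2
  qe : q * e = 2 * f
  K9 : 9 < K
  K10 : K < 10
  kq : (q : ℝ) * (K * (K - 9)) = 9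
  sg : σ ^ 2 = 9 * f ^ 2 + 2 * e * f
  s0 : 0 < σ
  ks : K * σ = 3 * (f * K + e)
  irr : Irrational K

section
variable {f h e q : ℕ} {K σ : ℝ}

theorem Pr.f1 (P : Pr f h e q K σ) : 1 ≤ f := by have := P.hf; omega

theorem Pr.fq (P : Pr f h e q K σ) : f ≤ q := by
  have h1 := P.qe
  have h2 := P.e2
  have h3 := P.e1
  nlinarith

theorem Pr.q1 (P : Pr f h e q K σ) : 1 ≤ q := P.f1.trans P.fq

/-- the Bézout relation -/
theorem Pr.bez (P : Pr f h e q K σ) : ∃ u v : ℤ, (f : ℤ) * u + (-(e : ℤ)) * v = 1 := by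
  have h1 := P.hf
  have h2 := P.e2
  have h3 := P.e1
  interval_cases e
  · exact ⟨0, -1, by norm_num⟩
  · refine ⟨1, h, ?_⟩
    rw [h1]; push_cast; ring

/-- `f ∣ e x` implies `f ∣ x` -/
theorem Pr.dvd (P : Pr f h e q K σ) {x : ℤ} (hx : (f : ℤ) ∣ e * x) : (f : ℤ) ∣ x := by
  obtain ⟨u, v, huv⟩ := P.bez
  have h1 : x = f * (u * x) + (-v) * (e * x) := by linear_combination (-x) * huv
  rw [h1]
  exact dvd_add (dvd_mul_right _ _) (Dvd.dvd.mul_left hx _)

theorem Pr.fR (P : Pr f h e q K σ) : (1 : ℝ) ≤ f := by exact_mod_cast P.f1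
theorem Pr.hfR (P : Pr f h e q K σ) : (f : ℝ) = 2 * h + 1 := by rw [P.hf]; push_cast; ring
theorem Pr.eR1 (P : Pr f h e q K σ) : (1 : ℝ) ≤ e := by exact_mod_cast P.e1
theorem Pr.eR2 (P : Pr f h e q K σ) : (e : ℝ) ≤ 2 := by exact_mod_cast P.e2
theorem Pr.qR (P : Pr f h e q K σ) : (1 : ℝ) ≤ q := by exact_mod_cast P.q1
theorem Pr.fqR (P : Pr f h e q K σ) : (f : ℝ) ≤ q := by exact_mod_cast P.fq
theorem Pr.qeR (P : Pr f h e q K σ) : (q : ℝ) * e = 2 * f := by exact_mod_cast P.qe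

theorem Pr.D0 (P : Pr f h e q K σ) : 0 < 1 + q * K := by
  have := P.qR; have := P.K9; nlinarith

/-- `1 / (1 + q K) = (K - 9) / K` -/
theorem Pr.lam (P : Pr f h e q K σ) : (K - 9) * (1 + q * K) = K := by
  linear_combination P.kq

theorem Pr.div (P : Pr f h e q K σ) (x : ℝ) : x / (1 + q * K) = x * (K - 9) / K := by
  have hD := P.D0
  have hK := P.K9
  rw [div_eq_div_iff hD.ne' (by linarith)]
  linear_combination (-x) * P.lam

/-- `9 e = 2 f K (K - 9)` -/
theorem Pr.ke (P : Pr f h e q K σ) : 2 * (f : ℝ) * (K * (K - 9)) = 9 * e := by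
  have h1 := P.kq
  have h2 := P.qeR
  calc 2 * (f : ℝ) * (K * (K - 9)) = (q * e) * (K * (K - 9)) := by rw [h2]
    _ = (q * (K * (K - 9))) * e := by ring
    _ = 9 * e := by rw [h1]

/-- the level of the lines in a row -/
noncomputable def yy (f e : ℕ) (K : ℝ) (d : ℕ) (j : ℝ) : ℝ := K * d / 3 - (e + K * f) * j

/-- the level, relative to the critical degree -/
theorem Pr.yy_eq (P : Pr f h e q K σ) (d : ℕ) (M i : ℝ) :
    yy f e K d (M - i) = (e + K * f) * i + ((f - 1) * K + e) / 2 +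
      K * (2 * d + 3 - σ * (2 * M + 1)) / 6 := by
  unfold yy
  have h1 := P.ks
  linear_combination ((2 * M + 1) / 6) * h1

/-- the pairing of the two ends -/
theorem Pr.pair (P : Pr f h e q K σ) (d : ℕ) (M i g : ℝ) :
    (yy f e K d (M - i) - K * g) + (yy f e K d (M - i) + K * (1 + g)) / (1 + q * K) =
      (9 * f + 2 * e) * i + 9 * (h - g) + e +
        (1 + (K - 9) / K) * (K * (2 * d + 3 - σ * (2 * M + 1)) / 6) := by
  rw [P.div, P.yy_eq d M i]
  have hK : K ≠ 0 := by have := P.K9; linarith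
  obtain ⟨η, hη⟩ : ∃ η, η = K * (2 * d + 3 - σ * (2 * M + 1)) / 6 := ⟨_, rfl⟩
  rw [← hη]
  have h1 := P.ke
  have h2 := P.hfR
  field_simp
  rw [h2] at h1 ⊢
  linear_combination (2 * i + 1) * h1

end

end Pool.Agent.H59.PF
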